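import Pool.Agent.H70.GM.Nrm

/-!
# Project PR (helper62), part GM (helper70): the case of a double root over a finite field
-/

set_option autoImplicit false
set_option linter.all false

open Polynomial
open scoped Classical

namespace Pool.Agent.H70.GM

section fin

variable {k : Type} [Field k] [Fintype k]

theorem two_ne (h6 : (6 : k) ≠ 0) : (2 : k) ≠ 0 := by
  intro h
  apply h6
  rw [show (6 : k) = 2 * 3 by norm_num, h, zero_mul]

theorem three_ne (h6 : (6 : k) ≠ 0) : (3 : k) ≠ 0 := by
  intro h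
  apply h6
  rw [show (6 : k) = 2 * 3 by norm_num, h, mul_zero]

theorem ringChar_ne (h2 : (2 : k) ≠ 0) : ringChar k ≠ 2 := by
  intro h
  apply h2
  have := ringChar.Nat.cast_ringChar (R := k)
  rw [h] at this
  exact_mod_cast this

theorem mul_nonsq (h2 : (2 : k) ≠ 0) {a b : k} (ha : ¬ IsSquare a) (hb : ¬ IsSquare b) :
    IsSquare (a * b) := by
  have hr := ringChar_ne h2
  have ha' := (quadraticChar_neg_one_iff_not_isSquare (F := k) (a := a)).2 ha
  have hb' := (quadraticChar_neg_one_iff_not_isSquare (F := k) (a := b)).2 hb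
  have h0 : a * b ≠ 0 := by
    intro h
    rcases mul_eq_zero.1 h with h | h
    · exact ha (h ▸ IsSquare.zero)
    · exact hb (h ▸ IsSquare.zero)
  rw [← quadraticChar_one_iff_isSquare h0, map_mul, ha', hb']
  norm_num

/-- A non-square shift of a square. -/
theorem ex_shift (h6 : (6 : k) ≠ 0) (d : k) (hd : d ≠ 0) :
    ∃ s : k, s ≠ 0 ∧ IsSquare s ∧ ¬ IsSquare (s + d) := by
  have h2 := two_ne h6
  have h3 := three_ne h6
  by_contra hcon
  push Not at hcon
  have H : ∀ s : k, s ≠ 0 → IsSquare s → IsSquare (s + d) := hcon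
  by_cases hds : IsSquare d
  · obtain ⟨v, hv⟩ := hds
    have hv0 : v ≠ 0 := by rintro rfl; exact hd (by rw [hv]; ring)
    have hadd : ∀ s s' : k, IsSquare s → IsSquare s' → IsSquare (s + s') := by
      intro s s' hs hs'
      by_cases h0 : s = 0
      · rw [h0, zero_add]; exact hs'
      by_cases h0' : s' = 0
      · rw [h0', add_zero]; exact hs
      obtain ⟨u, hu⟩ := hs'
      have hu0 : u ≠ 0 := by rintro rfl; exact h0' (by rw [hu]; ring)
      obtain ⟨w, hw⟩ := hs
      obtain ⟨z, hz⟩ := H (s * (v / u) ^ 2) (mul_ne_zero h0 (pow_ne_zero _ (div_ne_zero hv0 hu0)))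
        ⟨w * (v / u), by rw [hw]; ring⟩
      refine ⟨z * (u / v), ?_⟩
      have : (z * (u / v)) * (z * (u / v)) = (z * z) * (u / v) ^ 2 := by ring
      rw [this, ← hz, hv, hu]
      field_simp
    have hnat : ∀ n : ℕ, IsSquare (n : k) := by
      intro n
      induction n with
      | zero => rw [Nat.cast_zero]; exact IsSquare.zero
      | succ n ih => rw [Nat.cast_succ]; exact hadd _ _ ih ⟨1, by ring⟩
    have hm1 : IsSquare (-1 : k) := by
      have h := hnat (ringChar k - 1)
      have hc : 1 ≤ ringChar k := by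
        have := CharP.char_ne_zero_of_finite k (ringChar k)
        omega
      rw [Nat.cast_sub hc, ringChar.Nat.cast_ringChar, Nat.cast_one, zero_sub] at h
      exact h
    obtain ⟨i, hi⟩ := hm1
    obtain ⟨a, ha⟩ := FiniteField.exists_nonsquare (ringChar_ne h2)
    apply ha
    have e : a = ((a + 1) / 2) * ((a + 1) / 2) + (i * ((a - 1) / 2)) * (i * ((a - 1) / 2)) := by
      have : (i * ((a - 1) / 2)) * (i * ((a - 1) / 2)) = (i * i) * ((a - 1) / 2) ^ 2 := by ring
      rw [this, ← hi]
      field_simp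
      ring
    rw [e]
    exact hadd _ _ ⟨_, rfl⟩ ⟨_, rfl⟩
  · have hsn : ∀ s n : k, s ≠ 0 → IsSquare s → ¬ IsSquare n → IsSquare (s + n) := by
      intro s n hs0 hs hn
      obtain ⟨w, hw⟩ := mul_nonsq h2 hn hds
      have hn0 : n ≠ 0 := fun h => hn (h ▸ IsSquare.zero)
      have hw0 : w ≠ 0 := by
        rintro rfl
        exact mul_ne_zero hn0 hd (by rw [hw]; ring)
      obtain ⟨r, hr⟩ := hs
      obtain ⟨z, hz⟩ := H (s * (d / w) ^ 2) (mul_ne_zero hs0 (pow_ne_zero _ (div_ne_zero hd hw0)))
        ⟨r * (d / w), by rw [hr]; ring⟩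
      refine ⟨z * (w / d), ?_⟩
      have : (z * (w / d)) * (z * (w / d)) = (z * z) * (w / d) ^ 2 := by ring
      rw [this, ← hz]
      have hw2 : w ^ 2 = n * d := by rw [hw]; ring
      field_simp
      rw [hw2]
      ring
    have hzero : ∀ s n : k, s ≠ 0 → IsSquare s → ¬ IsSquare n → s + n = 0 := by
      intro s n hs0 hs hn
      by_contra hne
      have hn0 : n ≠ 0 := fun h => hn (h ▸ IsSquare.zero)
      have h1 := hsn s n hs0 hs hn
      have h4 : IsSquare (d * n) := mul_nonsq h2 hds hn
      have h5 : ¬ IsSquare (d * s) := by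
        intro h
        apply hds
        have : d = (d * s) / s := by field_simp
        rw [this]
        exact h.div hs
      have h7 := hsn (d * n) (d * s) (mul_ne_zero hd hn0) h4 h5
      apply hds
      have : d = (d * n + d * s) / (s + n) := by
        rw [eq_div_iff hne]; ring
      rw [this]
      exact h7.div h1
    have e1 := hzero 1 d one_ne_zero ⟨1, by ring⟩ hds
    have e2 := hzero 4 d (by
      rw [show (4 : k) = 2 * 2 by norm_num]; exact mul_ne_zero h2 h2) ⟨2, by norm_num⟩ hds
    apply h3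
    linear_combination e2 - e1

variable {A B : k}

/-- Square roots modulo `(X - e) ^ 2 (X - t)`. -/
theorem sqrt_double (h2 : (2 : k) ≠ 0) (e t : k) (het : e ≠ t) (c : k[X]) (he0 : c.eval e ≠ 0)
    (he : IsSquare (c.eval e)) (ht : IsSquare (c.eval t)) :
    ∃ g : k[X], (X - C e) ^ 2 * (X - C t) ∣ c - g ^ 2 := by
  obtain ⟨a, ha⟩ := he
  obtain ⟨b, hb⟩ := ht
  have ha0 : a ≠ 0 := by rintro rfl; exact he0 (by rw [ha]; ring)
  have hd : e - t ≠ 0 := sub_ne_zero.2 het
  let g1 : k[X] := C (a / (e - t)) * (X - C t) - C (b / (e - t)) * (X - C e)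
  have g1e : g1.eval e = a := by
    simp only [g1, eval_sub, eval_mul, eval_C, eval_X]
    field_simp
    ring
  have g1t : g1.eval t = b := by
    simp only [g1, eval_sub, eval_mul, eval_C, eval_X]
    field_simp
    ring
  have cp : IsCoprime (X - C e : k[X]) (X - C t) :=
    isCoprime_X_sub_C_of_isUnit_sub hd.isUnit
  have h1 : (X - C e) * (X - C t) ∣ c - g1 ^ 2 := by
    refine IsCoprime.mul_dvd cp ?_ ?_
    · rw [dvd_iff_isRoot, IsRoot, eval_sub, eval_pow, g1e, ha]; ring
    · rw [dvd_iff_isRoot, IsRoot, eval_sub, eval_pow, g1t, hb]; ring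
  obtain ⟨r, hr⟩ := h1
  let s : k := r.eval e / (2 * a)
  have h3 : (X - C e) ∣ r - 2 * g1 * C s - (X - C e) * (X - C t) * C s ^ 2 := by
    rw [dvd_iff_isRoot, IsRoot]
    simp only [eval_sub, eval_mul, eval_pow, eval_C, eval_X, g1e, s, eval_ofNat]
    field_simp
    ring
  obtain ⟨q, hq⟩ := h3
  refine ⟨g1 + (X - C e) * (X - C t) * C s, q, ?_⟩
  linear_combination hr + (X - C e) * (X - C t) * hq

/-- 2-descent over a finite field, double root. -/
theorem double_case (h6 : (6 : k) ≠ 0) (hd : 4 * A ^ 3 + 27 * B ^ 2 = 0) (hA : A ≠ 0) (c : k[X])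
    (hc : IsCoprime c (Fc A B)) (n : k) (hn : Nf A B c = n ^ 2) :
    (∃ g, Fc A B ∣ c - g ^ 2) ∨
    (∃ (x : k) (g : k[X]), x ^ 3 + A * x + B ≠ 0 ∧ Fc A B ∣ (C x - X) * c - g ^ 2) := by
  have h2 := two_ne h6
  have h3 := three_ne h6
  have hB : B ≠ 0 := by
    rintro rfl
    apply mul_ne_zero (mul_ne_zero h2 h2) (pow_ne_zero 3 hA)
    linear_combination hd
  have h4A3 : 4 * A ^ 3 = -27 * B ^ 2 := by linear_combination hd
  obtain ⟨e, he⟩ : ∃ e : k, 2 * A * e = -3 * B := ⟨-3 * B / (2 * A), by field_simp⟩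
  have hAe : A = -3 * e ^ 2 := by
    have h1 : (2 * A * e) ^ 2 = 9 * B ^ 2 := by rw [he]; ring
    have h7 : 4 * A ^ 2 * (A + 3 * e ^ 2) = 0 := by linear_combination h4A3 + 3 * h1
    have h8 : (4 : k) * A ^ 2 ≠ 0 := by
      rw [show (4 : k) = 2 * 2 by norm_num]
      exact mul_ne_zero (mul_ne_zero h2 h2) (pow_ne_zero 2 hA)
    have := (mul_eq_zero.1 h7).resolve_left h8
    linear_combination this
  have hBe : B = 2 * e ^ 3 := by
    have h7 : 3 * (B - 2 * e ^ 3) = 0 := by
      rw [hAe] at he
      linear_combination he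
    have := (mul_eq_zero.1 h7).resolve_left h3
    linear_combination this
  have he0 : e ≠ 0 := by rintro rfl; exact hA (by rw [hAe]; ring)
  let t : k := -2 * e
  have het : e ≠ t := by
    intro h
    have h7 : 3 * e = 0 := by linear_combination h
    exact mul_ne_zero h3 he0 h7
  have hF : Fc A B = (X - C e) ^ 2 * (X - C t) := by
    rw [Fc, hAe, hBe]
    simp only [t, C_mul, C_neg, C_pow, C_ofNat]
    ring
  have hce : c.eval e ≠ 0 := by
    intro h
    obtain ⟨u, v, huv⟩ := hc
    have := congrArg (eval e) huv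
    rw [hF] at this
    simp [h] at this
  have hct : c.eval t ≠ 0 := by
    intro h
    obtain ⟨u, v, huv⟩ := hc
    have := congrArg (eval t) huv
    rw [hF] at this
    simp [h] at this
  have hN : Nf A B c = c.eval e * c.eval e * c.eval t :=
    Nf_roots (by simp only [t]; ring) (by rw [hAe]; simp only [t]; ring)
      (by rw [hBe]; simp only [t]; ring) c
  have hts : IsSquare (c.eval t) := by
    refine ⟨n / c.eval e, ?_⟩
    rw [hN] at hn
    field_simp
    linear_combination hn
  by_cases hes : IsSquare (c.eval e)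
  · left
    obtain ⟨g, hg⟩ := sqrt_double h2 e t het c hce hes hts
    exact ⟨g, hF ▸ hg⟩
  · right
    obtain ⟨s, hs0, hs, hsd⟩ := ex_shift h6 (t - e) (sub_ne_zero.2 het.symm)
    have hx : (s + t) ^ 3 + A * (s + t) + B = (s + t - e) ^ 2 * (s + t - t) := by
      rw [hAe, hBe]; simp only [t]; ring
    have hse : s + t - e ≠ 0 := by
      intro h
      apply hsd
      have : s + (t - e) = 0 := by linear_combination h
      rw [this]; exact IsSquare.zero
    have hsd' : ¬ IsSquare (s + t - e) := by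
      intro h
      apply hsd
      have : s + (t - e) = s + t - e := by ring
      rw [this]; exact h
    obtain ⟨g, hg⟩ := sqrt_double h2 e t het ((C (s + t) - X) * c) (by
        rw [eval_mul, eval_sub, eval_C, eval_X]
        exact mul_ne_zero hse hce) (by
        rw [eval_mul, eval_sub, eval_C, eval_X]
        exact mul_nonsq h2 hsd' hes) (by
        rw [eval_mul, eval_sub, eval_C, eval_X, add_sub_cancel_right]
        exact hs.mul hts)
    refine ⟨s + t, g, ?_, hF ▸ hg⟩
    rw [hx, add_sub_cancel_right]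
    exact mul_ne_zero (pow_ne_zero 2 hse) hs0

end fin

end Pool.Agent.H70.GM
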