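import Pool.Agent.H70.GM.Nrm

/-!
# Project PR (helper62), part GM (helper70): square roots modulo a cubic polynomial over `ℤ_p`
-/

set_option autoImplicit false
set_option linter.all false

open Polynomial

namespace Pool.Agent.H70.GM

variable {p : ℕ} [Fact p.Prime]

theorem toZMod_surj : Function.Surjective (PadicInt.toZMod (p := p)) := ZMod.ringHom_surjective _

theorem map_zero_iff (P : ℤ_[p][X]) (h : P.map PadicInt.toZMod = 0) :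
    ∃ b : ℤ_[p][X], P = C (p : ℤ_[p]) * b := by
  have : C (p : ℤ_[p]) ∣ P := by
    rw [C_dvd_iff_dvd_coeff]
    intro i
    have h1 := congrArg (fun Q => Q.coeff i) h
    simp only [coeff_map, coeff_zero] at h1
    have h2 : P.coeff i ∈ RingHom.ker (PadicInt.toZMod (p := p)) := h1
    rw [PadicInt.ker_toZMod, PadicInt.maximalIdeal_eq_span_p, Ideal.mem_span_singleton] at h2
    exact h2
  exact this

theorem lift_dvd (F P : ℤ_[p][X]) (h : F.map PadicInt.toZMod ∣ P.map PadicInt.toZMod) :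
    ∃ a b : ℤ_[p][X], P = F * a + C (p : ℤ_[p]) * b := by
  obtain ⟨K, hK⟩ := h
  obtain ⟨a, ha⟩ := Polynomial.map_surjective _ (toZMod_surj (p := p)) K
  obtain ⟨b, hb⟩ := map_zero_iff (P - F * a) (by
    rw [Polynomial.map_sub, Polynomial.map_mul, hK, ha, sub_self])
  exact ⟨a, b, by rw [← hb]; ring⟩

theorem hens_step (F u g v : ℤ_[p][X]) (n : ℕ)
    (h1 : ∃ a b : ℤ_[p][X], u - g ^ 2 = F * a + C ((p : ℤ_[p]) ^ (n + 1)) * b)
    (h2 : ∃ a b : ℤ_[p][X], 2 * g * v - 1 = F * a + C (p : ℤ_[p]) * b) :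
    ∃ g' : ℤ_[p][X], (∃ a b : ℤ_[p][X], u - g' ^ 2 = F * a + C ((p : ℤ_[p]) ^ (n + 2)) * b) ∧
      ∃ a b : ℤ_[p][X], 2 * g' * v - 1 = F * a + C (p : ℤ_[p]) * b := by
  obtain ⟨a, b, hab⟩ := h1
  obtain ⟨a', b', hab'⟩ := h2
  refine ⟨g + C ((p : ℤ_[p]) ^ (n + 1)) * b * v,
    ⟨a - C ((p : ℤ_[p]) ^ (n + 1)) * b * a', -(b * b') - C ((p : ℤ_[p]) ^ n) * b ^ 2 * v ^ 2, ?_⟩,
    ⟨a', b' + 2 * C ((p : ℤ_[p]) ^ n) * b * v ^ 2, ?_⟩⟩
  · have e1 : (C ((p : ℤ_[p]) ^ (n + 1)) : ℤ_[p][X]) = C (p : ℤ_[p]) ^ (n + 1) := C_pow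
    have e2 : (C ((p : ℤ_[p]) ^ (n + 2)) : ℤ_[p][X]) = C (p : ℤ_[p]) ^ (n + 2) := C_pow
    have e3 : (C ((p : ℤ_[p]) ^ n) : ℤ_[p][X]) = C (p : ℤ_[p]) ^ n := C_pow
    rw [e1] at hab
    rw [e1, e2, e3]
    linear_combination hab - C (p : ℤ_[p]) ^ (n + 1) * b * hab'
  · have e1 : (C ((p : ℤ_[p]) ^ (n + 1)) : ℤ_[p][X]) = C (p : ℤ_[p]) ^ (n + 1) := C_pow
    have e3 : (C ((p : ℤ_[p]) ^ n) : ℤ_[p][X]) = C (p : ℤ_[p]) ^ n := C_pow
    rw [e1, e3]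
    linear_combination hab'

theorem hens_seq (F u g v : ℤ_[p][X])
    (h1 : ∃ a b : ℤ_[p][X], u - g ^ 2 = F * a + C (p : ℤ_[p]) * b)
    (h2 : ∃ a b : ℤ_[p][X], 2 * g * v - 1 = F * a + C (p : ℤ_[p]) * b) (n : ℕ) :
    ∃ g' : ℤ_[p][X], (∃ a b : ℤ_[p][X], u - g' ^ 2 = F * a + C ((p : ℤ_[p]) ^ (n + 1)) * b) ∧
      ∃ a b : ℤ_[p][X], 2 * g' * v - 1 = F * a + C (p : ℤ_[p]) * b := by
  induction n with
  | zero => exact ⟨g, by simpa using h1, h2⟩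
  | succ n ih =>
    obtain ⟨g', h3, h4⟩ := ih
    exact hens_step F u g' v n h3 h4

theorem rem_uniq (A B : ℤ_[p]) (w0 w1 w2 : ℤ_[p]) (a : ℤ_[p][X])
    (h : C w0 + C w1 * X + C w2 * X ^ 2 = Fc A B * a) : w0 = 0 ∧ w1 = 0 ∧ w2 = 0 := by
  have hm : (Fc A B).Monic := by
    rw [Fc, add_assoc]
    refine monic_X_pow_add ?_
    refine (degree_add_le _ _).trans_lt (max_lt ?_ ?_)
    · exact (degree_C_mul_X_le _).trans_lt (by norm_num)
    · exact degree_C_le.trans_lt (by norm_num)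
  have hd : (Fc A B).natDegree = 3 := by
    rw [Fc, add_assoc]
    refine natDegree_add_eq_left_of_degree_lt ?_ |>.trans (natDegree_X_pow 3)
    rw [degree_X_pow]
    refine (degree_add_le _ _).trans_lt (max_lt ?_ ?_)
    · exact (degree_C_mul_X_le _).trans_lt (by norm_num)
    · exact degree_C_le.trans_lt (by norm_num)
  have ha : a = 0 := by
    by_contra ha
    have h1 : (Fc A B * a).natDegree = 3 + a.natDegree := by
      rw [hm.natDegree_mul' ha, hd]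
    have h2 : (C w0 + C w1 * X + C w2 * X ^ 2 : ℤ_[p][X]).natDegree ≤ 2 := by
      compute_degree
    rw [h, h1] at h2
    omega
  rw [ha, mul_zero] at h
  refine ⟨?_, ?_, ?_⟩
  · simpa [coeff_X, coeff_C] using congrArg (fun Q => Q.coeff 0) h
  · simpa [coeff_X, coeff_C] using congrArg (fun Q => Q.coeff 1) h
  · simpa [coeff_X, coeff_C] using congrArg (fun Q => Q.coeff 2) h

/-- Square roots modulo a cubic polynomial. -/
theorem hens0 (A B : ℤ_[p]) (u g v : ℤ_[p][X])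
    (h1 : ∃ a b : ℤ_[p][X], u - g ^ 2 = Fc A B * a + C (p : ℤ_[p]) * b)
    (h2 : ∃ a b : ℤ_[p][X], 2 * g * v - 1 = Fc A B * a + C (p : ℤ_[p]) * b) :
    ∃ g' : ℤ_[p][X], Fc A B ∣ u - g' ^ 2 := by
  obtain ⟨u0, u1, u2, q, hq⟩ := exists_three A B inferInstance u
  let Φ0 : ℤ_[p] × ℤ_[p] × ℤ_[p] → ℤ_[p] := fun g => u0 - (g.1 ^ 2 - 2 * B * g.2.1 * g.2.2)
  let Φ1 : ℤ_[p] × ℤ_[p] × ℤ_[p] → ℤ_[p] := fun g =>
    u1 - (2 * g.1 * g.2.1 - 2 * A * g.2.1 * g.2.2 - B * g.2.2 ^ 2)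
  let Φ2 : ℤ_[p] × ℤ_[p] × ℤ_[p] → ℤ_[p] := fun g =>
    u2 - (g.2.1 ^ 2 + 2 * g.1 * g.2.2 - A * g.2.2 ^ 2)
  have hΦ : ∀ x y z : ℤ_[p], (C u0 + C u1 * X + C u2 * X ^ 2 : ℤ_[p][X]) -
      (C x + C y * X + C z * X ^ 2) ^ 2 = C (Φ0 (x, y, z)) + C (Φ1 (x, y, z)) * X +
        C (Φ2 (x, y, z)) * X ^ 2 - Fc A B * (C z ^ 2 * X + 2 * C y * C z) := by
    intro x y z
    simp only [Φ0, Φ1, Φ2, Fc, C_sub, C_add, C_mul, C_pow, C_ofNat]
    ring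
  let K : ℕ → Set (ℤ_[p] × ℤ_[p] × ℤ_[p]) := fun n =>
    {g | ‖Φ0 g‖ ≤ (p : ℝ) ^ (-(n + 1 : ℕ) : ℤ) ∧ ‖Φ1 g‖ ≤ (p : ℝ) ^ (-(n + 1 : ℕ) : ℤ) ∧
      ‖Φ2 g‖ ≤ (p : ℝ) ^ (-(n + 1 : ℕ) : ℤ)}
  have hp1 : (1 : ℝ) < p := by exact_mod_cast (Fact.out : p.Prime).one_lt
  have hnest : ∀ n, K (n + 1) ⊆ K n := by
    rintro n g ⟨a0, a1, a2⟩
    have hle : (p : ℝ) ^ (-((n + 1 : ℕ) + 1 : ℕ) : ℤ) ≤ (p : ℝ) ^ (-(n + 1 : ℕ) : ℤ) :=
      zpow_le_zpow_right₀ hp1.le (by push_cast; omega)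
    exact ⟨a0.trans hle, a1.trans hle, a2.trans hle⟩
  have hclosed : ∀ n, IsClosed (K n) := by
    intro n
    have e : K n = {g | ‖Φ0 g‖ ≤ (p : ℝ) ^ (-(n + 1 : ℕ) : ℤ)} ∩
      ({g | ‖Φ1 g‖ ≤ (p : ℝ) ^ (-(n + 1 : ℕ) : ℤ)} ∩
        {g | ‖Φ2 g‖ ≤ (p : ℝ) ^ (-(n + 1 : ℕ) : ℤ)}) := rfl
    rw [e]
    refine IsClosed.inter (isClosed_le ?_ continuous_const) (IsClosed.inter
      (isClosed_le ?_ continuous_const) (isClosed_le ?_ continuous_const))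
    · exact continuous_norm.comp (by simp only [Φ0]; fun_prop)
    · exact continuous_norm.comp (by simp only [Φ1]; fun_prop)
    · exact continuous_norm.comp (by simp only [Φ2]; fun_prop)
  have hne : ∀ n, (K n).Nonempty := by
    intro n
    obtain ⟨g', ⟨a, b, hab⟩, -⟩ := hens_seq (Fc A B) u g v h1 h2 n
    obtain ⟨x, y, z, q', hq'⟩ := exists_three A B inferInstance g'
    obtain ⟨b0, b1, b2, q'', hq''⟩ := exists_three A B inferInstance b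
    have key := rem_uniq A B (Φ0 (x, y, z) - (p : ℤ_[p]) ^ (n + 1) * b0)
      (Φ1 (x, y, z) - (p : ℤ_[p]) ^ (n + 1) * b1) (Φ2 (x, y, z) - (p : ℤ_[p]) ^ (n + 1) * b2)
      ((C z ^ 2 * X + 2 * C y * C z) - q + 2 * (C x + C y * X + C z * X ^ 2) * q' +
        Fc A B * q' ^ 2 + a + C ((p : ℤ_[p]) ^ (n + 1)) * q'') (by
      have h3 := hΦ x y z
      rw [hq, hq', hq''] at hab
      simp only [C_sub, C_mul] at hab ⊢
      linear_combination hab - h3)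
    obtain ⟨k0, k1, k2⟩ := key
    have hdv : ∀ w b' : ℤ_[p], w - (p : ℤ_[p]) ^ (n + 1) * b' = 0 →
        ‖w‖ ≤ (p : ℝ) ^ (-(n + 1 : ℕ) : ℤ) := by
      intro w b' hw
      rw [PadicInt.norm_le_pow_iff_mem_span_pow, Ideal.mem_span_singleton]
      exact ⟨b', by linear_combination hw⟩
    exact ⟨(x, y, z), hdv _ _ k0, hdv _ _ k1, hdv _ _ k2⟩
  obtain ⟨⟨x, y, z⟩, hg⟩ := IsCompact.nonempty_iInter_of_sequence_nonempty_isCompact_isClosed K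
    hnest hne (hclosed 0).isCompact hclosed
  rw [Set.mem_iInter] at hg
  have hz : ∀ w : ℤ_[p], (∀ n : ℕ, ‖w‖ ≤ (p : ℝ) ^ (-(n + 1 : ℕ) : ℤ)) → w = 0 := by
    intro w hw
    have hlim : Filter.Tendsto (fun n : ℕ => (p : ℝ) ^ (-(n + 1 : ℕ) : ℤ)) Filter.atTop
        (nhds 0) := by
      have h3 := tendsto_pow_atTop_nhds_zero_of_lt_one (r := (p : ℝ)⁻¹) (by positivity)
        (inv_lt_one_of_one_lt₀ hp1)
      have h4 := h3.comp (Filter.tendsto_add_atTop_nat 1)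
      refine h4.congr fun n => ?_
      simp only [Function.comp_apply]
      rw [zpow_neg, zpow_natCast, inv_pow]
    have := ge_of_tendsto' hlim hw
    exact norm_le_zero_iff.1 this
  have e0 := hz _ fun n => (hg n).1
  have e1 := hz _ fun n => (hg n).2.1
  have e2 := hz _ fun n => (hg n).2.2
  refine ⟨C x + C y * X + C z * X ^ 2, q - (C z ^ 2 * X + 2 * C y * C z), ?_⟩
  have h3 := hΦ x y z
  rw [e0, e1, e2, C_0] at h3
  rw [hq]
  linear_combination h3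

/-- Hensel's lemma for `ℤ_p[X] / F`. -/
theorem hens (hp : p ≠ 2) (A B : ℤ_[p]) (u : ℤ_[p][X]) (g : (ZMod p)[X])
    (hu : IsCoprime (u.map PadicInt.toZMod) ((Fc A B).map PadicInt.toZMod))
    (hg : (Fc A B).map PadicInt.toZMod ∣ u.map PadicInt.toZMod - g ^ 2) :
    ∃ g' : ℤ_[p][X], Fc A B ∣ u - g' ^ 2 := by
  obtain ⟨g0, rfl⟩ := Polynomial.map_surjective _ (toZMod_surj (p := p)) g
  obtain ⟨r, s, hrs⟩ := hu
  obtain ⟨q, hq⟩ := hg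
  obtain ⟨r0, hr0⟩ := Polynomial.map_surjective _ (toZMod_surj (p := p)) r
  have h2 : (2 : ZMod p) ≠ 0 := by
    intro h
    have h3 : ((2 : ℕ) : ZMod p) = 0 := by exact_mod_cast h
    rw [ZMod.natCast_eq_zero_iff] at h3
    exact hp ((Nat.prime_dvd_prime_iff_eq Fact.out Nat.prime_two).1 h3)
  obtain ⟨i, hi⟩ := toZMod_surj (p := p) (2 : ZMod p)⁻¹
  refine hens0 A B u g0 (C i * r0 * g0) ?_ ?_
  · refine lift_dvd _ _ ?_
    rw [Polynomial.map_sub, Polynomial.map_pow, hq]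
    exact dvd_mul_right _ _
  · refine lift_dvd _ _ ⟨-(s + r * q), ?_⟩
    simp only [Polynomial.map_sub, Polynomial.map_mul, Polynomial.map_one, hr0, map_C, hi,
      Polynomial.map_ofNat]
    have h4 : (2 : (ZMod p)[X]) * C (2 : ZMod p)⁻¹ = 1 := by
      have : (2 : (ZMod p)[X]) = C 2 := rfl
      rw [this, ← C_mul, mul_inv_cancel₀ h2, C_1]
    linear_combination (g0.map PadicInt.toZMod) ^ 2 * r * h4 + hrs - r * hq

end Pool.Agent.H70.GM
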