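import Pool.Agent.H70.GM.FinC
import Pool.Agent.H70.GM.FinD
import Pool.Agent.H70.GM.Hens

/-!
# Project PR (helper62), part GM (helper70): unramified classes over `ℤ_p`, `p ≥ 5`
-/

set_option autoImplicit false
set_option linter.all false

open Polynomial

namespace Pool.Agent.H70.GM

variable {p : ℕ} [Fact p.Prime]

theorem coprime_sub {K : Type} [Field K] (a : K) (P : K[X]) (h : P.eval a ≠ 0) :
    IsCoprime (C a - X) P := by
  obtain ⟨q, hq⟩ : (X - C a) ∣ P - C (P.eval a) := by
    rw [dvd_iff_isRoot, IsRoot, eval_sub, eval_C, sub_self]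
  refine ⟨C (P.eval a)⁻¹ * q, C (P.eval a)⁻¹, ?_⟩
  have h1 : C (P.eval a)⁻¹ * C (P.eval a) = (1 : K[X]) := by
    rw [← C_mul, inv_mul_cancel₀ h, C_1]
  linear_combination C (P.eval a)⁻¹ * hq + h1

theorem toZMod_eq_zero {w : ℤ_[p]} : PadicInt.toZMod w = 0 ↔ (p : ℤ_[p]) ∣ w := by
  rw [← RingHom.mem_ker, PadicInt.ker_toZMod, PadicInt.maximalIdeal_eq_span_p,
    Ideal.mem_span_singleton]

theorem isUnit_of {w : ℤ_[p]} (h : PadicInt.toZMod w ≠ 0) : IsUnit w := by
  by_contra hn
  apply h
  have : w ∈ IsLocalRing.maximalIdeal ℤ_[p] := hn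
  rw [← PadicInt.ker_toZMod] at this
  exact this

/-- Unramified classes over `ℤ_p`. -/
theorem locZ (hp : 5 ≤ p) (A B : ℤ_[p])
    (hAB : ¬ (PadicInt.toZMod A = 0 ∧ PadicInt.toZMod B = 0)) (u : ℤ_[p][X])
    (hu : IsCoprime (u.map PadicInt.toZMod) ((Fc A B).map PadicInt.toZMod)) (m : ℤ_[p])
    (hm : Nf A B u = m ^ 2) :
    (∃ g : ℤ_[p][X], Fc A B ∣ u - g ^ 2) ∨
    (∃ (x : ℤ_[p]) (g : ℤ_[p][X]), x ^ 3 + A * x + B ≠ 0 ∧ Fc A B ∣ (C x - X) * u - g ^ 2) := by
  have hp2 : p ≠ 2 := by omega
  have hpz : (PadicInt.toZMod (p : ℤ_[p]) : ZMod p) = 0 := by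
    rw [map_natCast]; exact ZMod.natCast_self p
  set φ : ℤ_[p] →+* ZMod p := PadicInt.toZMod with hφ
  have h6 : (6 : ZMod p) ≠ 0 := by
    intro h
    have h3 : ((6 : ℕ) : ZMod p) = 0 := by exact_mod_cast h
    rw [ZMod.natCast_eq_zero_iff, show 6 = 2 * 3 by norm_num,
      (Fact.out : p.Prime).dvd_mul] at h3
    rcases h3 with h3 | h3
    · have := Nat.le_of_dvd (by norm_num) h3; omega
    · have := Nat.le_of_dvd (by norm_num) h3; omega
  have hcN : Nf (φ A) (φ B) (u.map φ) = (φ m) ^ 2 := by rw [Nf_map, hm, map_pow]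
  have hFm : (Fc A B).map φ = Fc (φ A) (φ B) := Fc_map φ A B
  have hu' : IsCoprime (u.map φ) (Fc (φ A) (φ B)) := hFm ▸ hu
  -- the first two cases
  have case1 : (∃ g, Fc (φ A) (φ B) ∣ u.map φ - g ^ 2) → ∃ g : ℤ_[p][X], Fc A B ∣ u - g ^ 2 := by
    rintro ⟨g, hg⟩
    exact hens hp2 A B u g hu (by rw [← hφ, hFm]; exact hg)
  have hFe : ∀ x : ZMod p, (Fc (φ A) (φ B)).eval x = x ^ 3 + φ A * x + φ B := fun x => by
    simp only [Fc, eval_add, eval_mul, eval_pow, eval_X, eval_C]
  have case2 : (∃ (x : ZMod p) (g : (ZMod p)[X]), x ^ 3 + φ A * x + φ B ≠ 0 ∧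
      Fc (φ A) (φ B) ∣ (C x - X) * u.map φ - g ^ 2) →
      ∃ (x : ℤ_[p]) (g : ℤ_[p][X]), x ^ 3 + A * x + B ≠ 0 ∧ Fc A B ∣ (C x - X) * u - g ^ 2 := by
    rintro ⟨x0, g, hx0, hg⟩
    obtain ⟨x, rfl⟩ := toZMod_surj (p := p) x0
    rw [← hφ] at hx0 hg
    obtain ⟨g', hg'⟩ := hens hp2 A B ((C x - X) * u) g (by
      rw [← hφ, hFm, Polynomial.map_mul, Polynomial.map_sub, map_C, map_X]
      exact IsCoprime.mul_left (coprime_sub _ _ (by rw [hFe]; exact hx0)) hu') (by
      rw [← hφ, hFm, Polynomial.map_mul, Polynomial.map_sub, map_C, map_X]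
      exact hg)
    refine ⟨x, g', ?_, hg'⟩
    intro h0
    apply hx0
    rw [← map_pow, ← map_mul, ← map_add, ← map_add, h0, map_zero]
  haveI : Fintype (ZMod p) := inferInstance
  by_cases hd : 4 * (φ A) ^ 3 + 27 * (φ B) ^ 2 = 0
  · have hA : φ A ≠ 0 := by
      intro hA
      apply hAB
      refine ⟨hA, ?_⟩
      rw [hA] at hd
      have h3 := three_ne h6
      have : (27 : ZMod p) * (φ B) ^ 2 = 0 := by linear_combination hd
      rcases mul_eq_zero.1 this with h | h
      · exfalso
        apply pow_ne_zero 3 h3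
        linear_combination h
      · exact pow_eq_zero_iff (two_ne_zero) |>.1 h
    rcases double_case h6 hd hA (u.map φ) hu' (φ m) hcN with h | h
    · exact Or.inl (case1 h)
    · exact Or.inr (case2 h)
  · rcases sep_case h6 hd (u.map φ) hu' (φ m) hcN with h | h | h
    · exact Or.inl (case1 h)
    · exact Or.inr (case2 h)
    · right
      obtain ⟨e0, g, he0, hg⟩ := h
      obtain ⟨e1, he1⟩ := toZMod_surj (p := p) e0
      rw [← hφ] at he1
      -- the derivative
      have hder : 3 * e0 ^ 2 + φ A ≠ 0 := by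
        intro h0
        apply hd
        have hA : φ A = -3 * e0 ^ 2 := by linear_combination h0
        have hB : φ B = 2 * e0 ^ 3 := by rw [hA] at he0; linear_combination he0
        rw [hA, hB]; ring
      -- the root
      have hmon : (Fc A B).Monic := by
        rw [Fc, add_assoc]
        refine monic_X_pow_add ?_
        refine (degree_add_le _ _).trans_lt (max_lt ?_ ?_)
        · exact (degree_C_mul_X_le _).trans_lt (by norm_num)
        · exact degree_C_le.trans_lt (by norm_num)
      have hFev : ∀ x : ℤ_[p], (Fc A B).eval x = x ^ 3 + A * x + B := fun x => by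
        simp only [Fc, eval_add, eval_mul, eval_pow, eval_X, eval_C]
      have hFd : ∀ x : ℤ_[p], (Fc A B).derivative.eval x = 3 * x ^ 2 + A := fun x => by
        simp only [Fc, derivative_add, derivative_X_pow, derivative_mul, derivative_C, derivative_X,
          zero_mul, zero_add, mul_one, add_zero, eval_add, eval_mul, eval_pow, eval_X, eval_C]
        norm_num
      obtain ⟨e, her, hee⟩ := HenselianRing.is_henselian (I := IsLocalRing.maximalIdeal ℤ_[p])
        (Fc A B) hmon e1 (by
        rw [← PadicInt.ker_toZMod, RingHom.mem_ker, hFev, ← hφ, map_add, map_add, map_mul, map_pow,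
          he1]
        exact he0) (by
        rw [hFd]
        refine IsUnit.map _ ?_
        apply isUnit_of
        rw [← hφ, map_add, map_mul, map_pow, he1, map_ofNat]
        exact hder)
      have her' : e ^ 3 + A * e + B = 0 := by rw [← hFev]; exact her
      have hφe : φ e = e0 := by
        rw [← PadicInt.ker_toZMod, RingHom.mem_ker, ← hφ, map_sub, he1] at hee
        exact sub_eq_zero.1 hee
      obtain ⟨δ', hδ⟩ := (isUnit_of (w := 3 * e ^ 2 + A) (by
        rw [← hφ, map_add, map_mul, map_pow, hφe, map_ofNat]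
        exact hder)).exists_right_inv
      set δ : ℤ_[p] := 3 * e ^ 2 + A with hδdef
      let G : ℤ_[p][X] := X ^ 2 + C e * X + C (e ^ 2 + A)
      have hFG : Fc A B = (X - C e) * G := by
        have hB : B = -(e ^ 3 + A * e) := by linear_combination her'
        simp only [G, Fc, hB]
        simp only [C_add, C_mul, C_pow, C_neg]
        ring
      let x : ℤ_[p] := e + δ * p ^ 2
      let d' : ℤ_[p][X] := (C x - X) + C (1 - (p : ℤ_[p]) ^ 2) * G
      let w : ℤ_[p][X] := 1 + C ((p - 1) * δ') * G
      have hGe : G.eval e = δ := by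
        simp only [G, eval_add, eval_mul, eval_pow, eval_X, eval_C, hδdef]; ring
      have hdvd : Fc A B ∣ (C x - X) - d' * w ^ 2 := by
        have h1 : (X - C e) ∣ -((C x - X) * C ((p - 1) * δ') * (2 + C ((p - 1) * δ') * G)) -
            C (1 - (p : ℤ_[p]) ^ 2) * (1 + C ((p - 1) * δ') * G) ^ 2 := by
          rw [dvd_iff_isRoot, IsRoot]
          simp only [eval_sub, eval_neg, eval_mul, eval_add, eval_pow, eval_C, eval_X, eval_one,
            eval_ofNat, hGe]
          have e2 : ((p : ℤ_[p]) - 1) * δ' * δ = p - 1 := by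
            linear_combination ((p : ℤ_[p]) - 1) * hδ
          rw [e2]
          simp only [x]
          linear_combination (-((p : ℤ_[p]) ^ 2) * (p + 1)) * e2
        obtain ⟨q, hq⟩ := h1
        refine ⟨q, ?_⟩
        rw [hFG]
        simp only [d', w]
        linear_combination G * hq
      have hd'm : d'.map φ = (C e0 - X) + (X ^ 2 + C e0 * X + C (e0 ^ 2 + φ A)) := by
        simp only [d', G, x, Polynomial.map_add, Polynomial.map_sub, Polynomial.map_mul, map_C,
          map_X, Polynomial.map_pow, map_add, map_mul, map_pow, map_sub, map_one, hφe, hpz]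
        simp
      have hFG0 : Fc (φ A) (φ B) = (X - C e0) * (X ^ 2 + C e0 * X + C (e0 ^ 2 + φ A)) := by
        have hB : φ B = -(e0 ^ 3 + φ A * e0) := by linear_combination he0
        simp only [Fc, hB]
        simp only [C_add, C_mul, C_pow, C_neg]
        ring
      have hcop : IsCoprime (d'.map φ) (Fc (φ A) (φ B)) := by
        rw [hd'm, hFG0]
        refine IsCoprime.mul_right ?_ ?_
        · have h1 := coprime_sub e0 ((C e0 - X) + (X ^ 2 + C e0 * X + C (e0 ^ 2 + φ A))) (by
            simp only [eval_add, eval_mul, eval_pow, eval_X, eval_C, eval_sub]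
            intro h; apply hder; linear_combination h)
          have h3 := h1.symm.neg_right
          rwa [neg_sub] at h3
        · have h1 := coprime_sub e0 (X ^ 2 + C e0 * X + C (e0 ^ 2 + φ A)) (by
            simp only [eval_add, eval_mul, eval_pow, eval_X, eval_C]
            intro h; apply hder; linear_combination h)
          exact IsCoprime.add_mul_left_left h1 1 |> fun h => by simpa using h
      obtain ⟨g', hg'⟩ := hens hp2 A B (d' * u) g (by
        rw [← hφ, hFm, Polynomial.map_mul]
        exact IsCoprime.mul_left hcop hu') (by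
        rw [← hφ, hFm, Polynomial.map_mul, hd'm]
        exact hg)
      refine ⟨x, g' * w, ?_, ?_⟩
      · have h1 : x ^ 3 + A * x + B = (x - e) * (x ^ 2 + e * x + (e ^ 2 + A)) := by
          linear_combination her'
        rw [h1]
        refine mul_ne_zero ?_ ?_
        · simp only [x, add_sub_cancel_left]
          refine mul_ne_zero ?_ ?_
          · rintro h0
            rw [h0, zero_mul] at hδ
            exact zero_ne_one hδ
          · exact pow_ne_zero 2 (by exact_mod_cast (Fact.out : p.Prime).ne_zero)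
        · intro h0
          apply hder
          have h3 := congrArg φ h0
          simp only [x, map_add, map_mul, map_pow, hφe, hpz, map_zero] at h3
          linear_combination h3
      · obtain ⟨a, ha⟩ := hdvd
        obtain ⟨b, hb⟩ := hg'
        refine ⟨a * u + w ^ 2 * b, ?_⟩
        linear_combination u * ha + w ^ 2 * hb

end Pool.Agent.H70.GM
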