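import Pool.Agent.H62.PR.Stm
import Pool.Agent.H70.GM.LocZ
import Pool.Graph.R_pool_sql_team_seeded_63374d34.N803.PQ.Unim
import Pool.Graph.R_pool_sql_team_seeded_63374d34.N849.PQ.Int

/-!
# Project PR (helper62), part GM (helper70)
-/

set_option autoImplicit false
set_option linter.all false

open Polynomial IsDedekindDomain NumberField
open scoped Classical

namespace Pool.Agent.H70.GM

open Pool.Agent.N874.PP (Ev Sq1 U0 sW Rt)
open Pool.Agent.N874.PM (PLoc)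
open Pool.Agent.N922.PQ

section glob

variable {L : Type} [Field L] [CharZero L] {a b : ℤ} {θ : L}

theorem isCub_mul (h : IsCub a b θ) (D : ℤ) (hD : D ≠ 0) :
    IsCub (a * D ^ 2) (b * D ^ 3) ((D : L) * θ) := by
  refine ⟨?_, h.rank, fun x => ?_⟩
  · have := h.root
    push_cast
    linear_combination (D : L) ^ 3 * this
  · obtain ⟨r, s, t, rfl⟩ := h.gen x
    have hD' : (D : L) ≠ 0 := by exact_mod_cast hD
    refine ⟨r, s / D, t / D ^ 2, ?_⟩
    push_cast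
    field_simp

/-- The polynomials which vanish at `θ`. -/
theorem dvd_of_aeval (h : IsCub a b θ) (P : ℚ[X]) (hP : aeval θ P = 0) :
    Fc (a : ℚ) (b : ℚ) ∣ P := by
  obtain ⟨r, s, w, q, hq⟩ := exists_three (a : ℚ) (b : ℚ) inferInstance P
  have hF : aeval θ (Fc (a : ℚ) (b : ℚ)) = 0 := by
    simp only [Fc, map_add, map_mul, map_pow, aeval_X, aeval_C, eq_ratCast, Rat.cast_intCast]
    exact h.root
  have h1 : (((![r, s, w] : Fin 3 → ℚ) 0 : ℚ) : L) + (((![r, s, w] : Fin 3 → ℚ) 1 : ℚ) : L) * θ +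
      (((![r, s, w] : Fin 3 → ℚ) 2 : ℚ) : L) * θ ^ 2 = 0 := by
    have := hP
    rw [hq, map_add, map_mul, hF, zero_mul, add_zero] at this
    simp only [map_add, map_mul, map_pow, aeval_X, aeval_C, eq_ratCast] at this
    exact this
  have h2 := fun i => Pool.Agent.N803.PQ.co_sum h (![r, s, w]) i
  rw [h1] at h2
  have e0 := h2 0
  have e1 := h2 1
  have e2 := h2 2
  simp only [map_zero, Matrix.cons_val_zero, Matrix.cons_val_one, Matrix.cons_val] at e0 e1 e2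
  rw [hq, ← e0, ← e1, ← e2]
  simp

theorem ex_poly (h : IsCub a b θ) (x : L) : ∃ P : ℚ[X], aeval θ P = x := by
  obtain ⟨r, s, t, rfl⟩ := h.gen x
  exact ⟨C r + C s * X + C t * X ^ 2, by
    simp only [map_add, map_mul, map_pow, aeval_X, aeval_C, eq_ratCast]⟩

theorem norm_eq (h : IsCub a b θ) (P : ℚ[X]) :
    Algebra.norm ℚ (aeval θ P) = Nf (a : ℚ) (b : ℚ) P := by
  refine Nf_norm θ ?_ h.basis ?_ P
  · simp only [eq_ratCast, Rat.cast_intCast]; exact h.root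
  · intro i
    rw [h.basis_apply]
    fin_cases i <;> simp [vec]

end glob

/-- From `ℤ_p` to the local condition. -/
theorem ploc_of {p : ℕ} [Fact p.Prime] (A B : ℤ) (h : ℚ[X]) (u : ℤ_[p][X]) (k' : ℚ_[p][X])
    (hk : X ^ 3 + C (A : ℚ_[p]) * X + C (B : ℚ_[p]) ∣
      h.map (algebraMap ℚ ℚ_[p]) - u.map (PadicInt.Coe.ringHom) * k' ^ 2) (m : ℤ_[p]) (hm0 : m ≠ 0)
    (hm : Nf (A : ℤ_[p]) (B : ℤ_[p]) u = m ^ 2)
    (H : (∃ g : ℤ_[p][X], Fc (A : ℤ_[p]) (B : ℤ_[p]) ∣ u - g ^ 2) ∨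
      (∃ (x : ℤ_[p]) (g : ℤ_[p][X]), x ^ 3 + A * x + B ≠ 0 ∧
        Fc (A : ℤ_[p]) (B : ℤ_[p]) ∣ (C x - X) * u - g ^ 2)) :
    PLoc ℚ_[p] (A : ℚ) (B : ℚ) h := by
  have eA : algebraMap ℚ ℚ_[p] (A : ℚ) = (A : ℚ_[p]) := by simp
  have eB : algebraMap ℚ ℚ_[p] (B : ℚ) = (B : ℚ_[p]) := by simp
  let ι : ℤ_[p] →+* ℚ_[p] := PadicInt.Coe.ringHom
  have hι : ∀ z : ℤ_[p], ι z = (z : ℚ_[p]) := fun z => rfl
  have hFm : (Fc (A : ℤ_[p]) (B : ℤ_[p])).map ι = X ^ 3 + C (A : ℚ_[p]) * X + C (B : ℚ_[p]) := by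
    have hA' : ι (A : ℤ_[p]) = (A : ℚ_[p]) := map_intCast ι A
    have hB' : ι (B : ℤ_[p]) = (B : ℚ_[p]) := map_intCast ι B
    rw [Fc_map, hA', hB']
    rfl
  unfold PLoc
  rw [eA, eB]
  obtain ⟨q0, hq0⟩ := hk
  rcases H with ⟨g, q, hq⟩ | ⟨x, g, hx, q, hq⟩
  · left
    have h1 := congrArg (Polynomial.map ι) hq
    rw [Polynomial.map_sub, Polynomial.map_mul, Polynomial.map_pow, hFm] at h1
    refine ⟨g.map ι * k', q0 + q.map ι * k' ^ 2, ?_⟩
    have h2 : u.map ι = u.map (PadicInt.Coe.ringHom) := rfl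
    rw [h2] at h1
    linear_combination hq0 + k' ^ 2 * h1
  · right
    have h3 : (x ^ 3 + A * x + B) * m ^ 2 = (Nf (A : ℤ_[p]) (B : ℤ_[p]) g) ^ 2 := by
      have h4 : Nf (A : ℤ_[p]) (B : ℤ_[p]) ((C x - X) * u) = Nf (A : ℤ_[p]) (B : ℤ_[p]) (g ^ 2) :=
        Nf_congr _ _ ⟨q, hq⟩
      rw [Nf_mul, Nf_lin, hm, pow_two g, Nf_mul] at h4
      rw [h4]; ring
    have hm0' : (m : ℚ_[p]) ≠ 0 := fun h => hm0 (Subtype.ext h)
    have h5 : ((x : ℚ_[p]) ^ 3 + A * x + B) * m ^ 2 =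
        ((Nf (A : ℤ_[p]) (B : ℤ_[p]) g : ℤ_[p]) : ℚ_[p]) ^ 2 := by
      have := congrArg (fun z : ℤ_[p] => (z : ℚ_[p])) h3
      push_cast at this
      exact this
    have hx' : (x : ℚ_[p]) ^ 3 + A * x + B ≠ 0 := by
      intro h
      apply hx
      have : ((x ^ 3 + A * x + B : ℤ_[p]) : ℚ_[p]) = 0 := by push_cast; exact h
      exact Subtype.ext this
    refine ⟨x, ((Nf (A : ℤ_[p]) (B : ℤ_[p]) g : ℤ_[p]) : ℚ_[p]) / m, ?_, ?_, g.map ι * k',
      ?_⟩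
    · intro h0
      have h6 : ((Nf (A : ℤ_[p]) (B : ℤ_[p]) g : ℤ_[p]) : ℚ_[p]) = 0 := by
        rcases div_eq_zero_iff.1 h0 with h | h
        · exact h
        · exact absurd h hm0'
      rw [h6] at h5
      have h7 : ((x : ℚ_[p]) ^ 3 + A * x + B) * (m : ℚ_[p]) ^ 2 = 0 := by rw [h5]; ring
      exact mul_ne_zero hx' (pow_ne_zero 2 hm0') h7
    · rw [div_pow, ← h5, mul_div_cancel_right₀ _ (pow_ne_zero 2 hm0')]
    · have h1 := congrArg (Polynomial.map ι) hq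
      rw [Polynomial.map_sub, Polynomial.map_mul, Polynomial.map_mul, Polynomial.map_pow,
        Polynomial.map_sub, map_C, map_X, hFm, hι] at h1
      refine ⟨(C (x : ℚ_[p]) - X) * q0 + q.map ι * k' ^ 2, ?_⟩
      have h2 : u.map ι = u.map (PadicInt.Coe.ringHom) := rfl
      rw [h2] at h1
      linear_combination (C (x : ℚ_[p]) - X) * hq0 + k' ^ 2 * h1

section main

variable {L O : Type} [Field L] [NumberField L] [CommRing O] [IsDedekindDomain O]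
  [Algebra O L] [IsFractionRing O L] [IsIntegralClosure O ℤ L] {a b : ℤ} {θ : L}

/-- Integrality at `p`. -/
theorem int_poly (h : IsCub a b θ) (hsq : Squarefree (dsc a b)) {D P : ℤ} (hP : Prime P)
    (hD : ¬ P ∣ D) (x : L) (hx : ∀ 𝔓 : HeightOneSpectrum O, Ov P 𝔓 → 𝔓.valuation L x ≤ 1) :
    ∃ (n : ℤ) (f : ℤ[X]), ¬ P ∣ n ∧ aeval ((D : L) * θ) f = (n : L) * x := by
  obtain ⟨s, hs, hint⟩ := Pool.Agent.N803.PQ.loc_int (O := O) hP x hx
  obtain ⟨v, hv⟩ := (Pool.Agent.N849.PQ.int L a b θ h hsq _).1 hint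
  have hv' : (s : L) * x = (v 0 : L) + (v 1 : L) * θ + (v 2 : L) * θ ^ 2 := hv
  refine ⟨D ^ 2 * s, C (D ^ 2 * v 0) + C (D * v 1) * X + C (v 2) * X ^ 2, ?_, ?_⟩
  · intro h1
    rcases hP.dvd_mul.1 h1 with h1 | h1
    · exact hD (hP.dvd_of_dvd_pow h1)
    · exact hs h1
  · have e : ∀ n : ℤ, aeval ((D : L) * θ) (C n : ℤ[X]) = (n : L) := fun n => by
      rw [aeval_C, algebraMap_int_eq]; rfl
    simp only [map_add, map_mul, map_pow, aeval_X, e]
    push_cast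
    linear_combination (-(D : L) ^ 2) * hv'

end main

/-- **Part GM** of project PR. -/
theorem gm : Pool.Agent.H62.PR.S_GM := by
  intro L O _ _ _ _ _ _ _ a b D θ hc hsq p _ hp5 hpD h hne hN hEv
  have hpP : Prime (p : ℤ) := Nat.prime_iff_prime_int.1 Fact.out
  have hD0 : D ≠ 0 := by rintro rfl; exact hpD (dvd_zero _)
  have hct := isCub_mul hc D hD0
  set A : ℤ := a * D ^ 2 with hAdef
  set B : ℤ := b * D ^ 3 with hBdef
  set t : L := (D : L) * θ with ht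
  set η : L := aeval t h with hη
  -- a unit
  let T : Finset (HeightOneSpectrum O) :=
    (Pool.Agent.N803.PQ.fin_over (L := L) (O := O) (P := (p : ℤ)) hpP.ne_zero).toFinset
  have hT : ∀ 𝔓, 𝔓 ∈ T ↔ Ov (p : ℤ) 𝔓 := fun 𝔓 => by simp [T]
  have hy0 : ∀ 𝔓 : HeightOneSpectrum O, ∃ y : L, 𝔓 ∈ T → 𝔓.valuation L η = 𝔓.valuation L y ^ 2 := by
    intro 𝔓
    by_cases h𝔓 : 𝔓 ∈ T
    · obtain ⟨y, hy⟩ := hEv 𝔓 ((hT 𝔓).1 h𝔓)
      exact ⟨y, fun _ => hy⟩
    · exact ⟨0, fun h' => absurd h' h𝔓⟩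
  choose yy hyy using hy0
  have hyy0 : ∀ 𝔓 ∈ T, yy 𝔓 ≠ 0 := by
    intro 𝔓 h𝔓 h0
    have := hyy 𝔓 h𝔓
    rw [h0, map_zero, zero_pow two_ne_zero] at this
    exact (Valuation.ne_zero_iff _).2 hne this
  obtain ⟨y, hy, hyv⟩ := Pool.Agent.N803.PQ.weak T yy hyy0
  let w : L := η / y ^ 2
  have hw0 : w ≠ 0 := div_ne_zero hne (pow_ne_zero 2 hy)
  have hw : ∀ 𝔓 : HeightOneSpectrum O, Ov (p : ℤ) 𝔓 → 𝔓.valuation L w = 1 := by
    intro 𝔓 h𝔓
    have h1 := (hT 𝔓).2 h𝔓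
    simp only [w]
    rw [map_div₀, map_pow, hyv 𝔓 h1, ← hyy 𝔓 h1]
    exact div_self ((Valuation.ne_zero_iff _).2 hne)
  obtain ⟨n1, f1, hn1, hf1⟩ := int_poly (O := O) (D := D) hc hsq hpP hpD w (fun 𝔓 h𝔓 => (hw 𝔓 h𝔓).le)
  obtain ⟨n2, f2, hn2, hf2⟩ := int_poly (O := O) (D := D) hc hsq hpP hpD w⁻¹ (fun 𝔓 h𝔓 => by
    rw [map_inv₀, hw 𝔓 h𝔓, inv_one])
  rw [← ht] at hf1 hf2
  have hn1' : (n1 : L) ≠ 0 := by
    have : n1 ≠ 0 := by rintro rfl; exact hn1 (dvd_zero _)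
    exact_mod_cast this
  let h1 : ℤ[X] := C n1 * f1
  have hh1 : aeval t h1 = (n1 : L) ^ 2 * w := by
    have e : aeval t (C n1 : ℤ[X]) = (n1 : L) := by rw [aeval_C, algebraMap_int_eq]; rfl
    simp only [h1]
    rw [map_mul, hf1, e]; ring
  -- the product
  have hprod : Fc A B ∣ f1 * f2 - C (n1 * n2) := by
    have hmon : (Fc A B).Monic := by
      rw [Fc, add_assoc]
      refine monic_X_pow_add ?_
      refine (degree_add_le _ _).trans_lt (max_lt ?_ ?_)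
      · exact (degree_C_mul_X_le _).trans_lt (by norm_num)
      · exact degree_C_le.trans_lt (by norm_num)
    rw [← Polynomial.map_dvd_map (Int.castRingHom ℚ) Int.cast_injective hmon, Fc_map]
    refine dvd_of_aeval hct _ ?_
    have e : ∀ P : ℤ[X], aeval t (P.map (Int.castRingHom ℚ)) = aeval t P := fun P => by
      rw [← algebraMap_int_eq, aeval_map_algebraMap]
    have e' : aeval t (C (n1 * n2) : ℤ[X]) = ((n1 * n2 : ℤ) : L) := by
      rw [aeval_C, algebraMap_int_eq]; rfl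
    rw [e, map_sub, map_mul, hf1, hf2, e']
    push_cast
    field_simp
    ring
  -- reduction modulo p
  let ψ : ℤ →+* ℤ_[p] := Int.castRingHom ℤ_[p]
  let u : ℤ_[p][X] := h1.map ψ
  have hcomp : (PadicInt.toZMod (p := p)).comp ψ = Int.castRingHom (ZMod p) := RingHom.ext_int _ _
  have hcast : ∀ n : ℤ, ¬ (p : ℤ) ∣ n → ((n : ℤ) : ZMod p) ≠ 0 := fun n hn h0 =>
    hn ((ZMod.intCast_zmod_eq_zero_iff_dvd n p).1 h0)
  have hucop : IsCoprime (u.map PadicInt.toZMod)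
      ((Fc (A : ℤ_[p]) (B : ℤ_[p])).map PadicInt.toZMod) := by
    have eu : u.map PadicInt.toZMod = h1.map (Int.castRingHom (ZMod p)) := by
      simp only [u]; rw [Polynomial.map_map, hcomp]
    have eF : (Fc (A : ℤ_[p]) (B : ℤ_[p])).map (PadicInt.toZMod (p := p)) =
        (Fc A B).map (Int.castRingHom (ZMod p)) := by
      rw [Fc_map, Fc_map, map_intCast, map_intCast, eq_intCast, eq_intCast]
    rw [eu, eF]
    obtain ⟨q, hq⟩ := hprod
    have h3 := congrArg (Polynomial.map (Int.castRingHom (ZMod p))) hq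
    have hcr : ∀ n : ℤ, (Int.castRingHom (ZMod p)) n = (n : ZMod p) := fun _ => rfl
    rw [Polynomial.map_sub, Polynomial.map_mul, Polynomial.map_mul, Polynomial.map_C, hcr] at h3
    have hn1p := hcast n1 hn1
    have hn2p := hcast n2 hn2
    simp only [h1]
    rw [Polynomial.map_mul, Polynomial.map_C, hcr]
    have e1 : C ((n1 : ZMod p))⁻¹ * C (n1 : ZMod p) = (1 : (ZMod p)[X]) := by
      rw [← C_mul, inv_mul_cancel₀ hn1p, C_1]
    have e2 : C ((n2 : ZMod p))⁻¹ * C (n2 : ZMod p) = (1 : (ZMod p)[X]) := by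
      rw [← C_mul, inv_mul_cancel₀ hn2p, C_1]
    have e3 : (C (((n1 * n2 : ℤ)) : ZMod p) : (ZMod p)[X]) = C (n1 : ZMod p) * C (n2 : ZMod p) := by
      rw [Int.cast_mul, C_mul]
    refine ⟨C ((n1 : ZMod p))⁻¹ ^ 2 * C ((n2 : ZMod p))⁻¹ * f2.map (Int.castRingHom (ZMod p)),
      -(C ((n1 : ZMod p))⁻¹ * C ((n2 : ZMod p))⁻¹ * q.map (Int.castRingHom (ZMod p))), ?_⟩
    rw [e3] at h3
    generalize C ((n1 : ZMod p))⁻¹ = i1 at *
    generalize C ((n2 : ZMod p))⁻¹ = i2 at *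
    generalize (C (n1 : ZMod p) : (ZMod p)[X]) = c1 at *
    generalize (C (n2 : ZMod p) : (ZMod p)[X]) = c2 at *
    generalize Polynomial.map (Int.castRingHom (ZMod p)) f1 = F1 at *
    generalize Polynomial.map (Int.castRingHom (ZMod p)) f2 = F2 at *
    generalize Polynomial.map (Int.castRingHom (ZMod p)) q = Q at *
    generalize Polynomial.map (Int.castRingHom (ZMod p)) (Fc A B) = FF at *
    linear_combination (i1 * i2) * h3 + (i1 * i2 * F1 * F2 + i2 * c2) * e1 + e2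
  -- the norm
  have hNh1 : Algebra.norm ℚ (aeval t (h1.map (Int.castRingHom ℚ))) = ((Nf A B h1 : ℤ) : ℚ) := by
    rw [norm_eq hct]
    exact Nf_map (Int.castRingHom ℚ) A B h1
  have e : ∀ P : ℤ[X], aeval t (P.map (Int.castRingHom ℚ)) = aeval t P := fun P => by
    rw [← algebraMap_int_eq, aeval_map_algebraMap]
  rw [e, hh1] at hNh1
  obtain ⟨m0, hm0⟩ : IsSquare (Nf A B h1) := by
    rw [← Rat.isSquare_intCast_iff, ← hNh1]
    have h4 : (n1 : L) ^ 2 * w = ((n1 : L) / y) * ((n1 : L) / y) * η := by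
      simp only [w]; field_simp
    rw [h4, map_mul, map_mul]
    exact IsSquare.mul ⟨_, rfl⟩ hN
  have hm00 : m0 ≠ 0 := by
    rintro rfl
    rw [hm0, mul_zero, Int.cast_zero] at hNh1
    rw [Algebra.norm_eq_zero_iff] at hNh1
    exact mul_ne_zero (pow_ne_zero 2 hn1') hw0 hNh1
  have hmZ : Nf (A : ℤ_[p]) (B : ℤ_[p]) u = (m0 : ℤ_[p]) ^ 2 := by
    have h5 := Nf_map ψ A B h1
    rw [hm0] at h5
    have h6 : ψ (m0 * m0) = (m0 : ℤ_[p]) ^ 2 := by
      simp only [ψ, eq_intCast, Int.cast_mul]; ring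
    rw [h6] at h5
    exact h5
  -- A and B
  have hAB : ¬ (PadicInt.toZMod (A : ℤ_[p]) = 0 ∧ PadicInt.toZMod (B : ℤ_[p]) = 0) := by
    rintro ⟨hA, hB⟩
    rw [map_intCast] at hA hB
    have hA' := (ZMod.intCast_zmod_eq_zero_iff_dvd A p).1 hA
    have hB' := (ZMod.intCast_zmod_eq_zero_iff_dvd B p).1 hB
    have ha : (p : ℤ) ∣ a := by
      rcases hpP.dvd_mul.1 hA' with h5 | h5
      · exact h5
      · exact absurd (hpP.dvd_of_dvd_pow h5) hpD
    have hb : (p : ℤ) ∣ b := by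
      rcases hpP.dvd_mul.1 hB' with h5 | h5
      · exact h5
      · exact absurd (hpP.dvd_of_dvd_pow h5) hpD
    obtain ⟨a', rfl⟩ := ha
    obtain ⟨b', rfl⟩ := hb
    have h7 : (p : ℤ) * (p : ℤ) ∣ dsc (p * a') (p * b') := by
      refine ⟨4 * p * a' ^ 3 + 27 * b' ^ 2, ?_⟩
      unfold dsc; ring
    exact hpP.not_unit (hsq _ h7)
  -- the class
  obtain ⟨k0, hk0⟩ := ex_poly hct (y / (n1 : L))
  have hk : Fc (A : ℚ) (B : ℚ) ∣ h - h1.map (Int.castRingHom ℚ) * k0 ^ 2 := by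
    refine dvd_of_aeval hct _ ?_
    rw [map_sub, map_mul, map_pow, e, hh1, hk0]
    simp only [w, ← hη]
    field_simp
    ring
  have hres := locZ hp5 (A : ℤ_[p]) (B : ℤ_[p]) hAB u hucop (m0 : ℤ_[p]) hmZ
  refine ploc_of A B h u (k0.map (algebraMap ℚ ℚ_[p])) ?_ (m0 : ℤ_[p]) (by exact_mod_cast hm00) hmZ
    hres
  have h8 := Polynomial.map_dvd (algebraMap ℚ ℚ_[p]) hk
  rw [Fc_map, Polynomial.map_sub, Polynomial.map_mul, Polynomial.map_pow, Polynomial.map_map] at h8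
  have e4 : (algebraMap ℚ ℚ_[p]).comp (Int.castRingHom ℚ) = (PadicInt.Coe.ringHom).comp ψ :=
    RingHom.ext_int _ _
  rw [e4, ← Polynomial.map_map] at h8
  have e5 : algebraMap ℚ ℚ_[p] (A : ℚ) = (A : ℚ_[p]) := by simp
  have e6 : algebraMap ℚ ℚ_[p] (B : ℚ) = (B : ℚ_[p]) := by simp
  rw [e5, e6] at h8
  exact h8

end Pool.Agent.H70.GM
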