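import Mathlib

/-!
# Project PR (helper62), part GM (helper70): general lemmas (finite fields)
-/

set_option autoImplicit false
set_option linter.all false

open Polynomial
open scoped Classical

namespace Pool.Agent.H70.GM

/-- Commuting endomorphisms. -/
theorem surj_ker {G : Type} [AddCommGroup G] (ψ δ : G →+ G) (hc : ∀ x, ψ (δ x) = δ (ψ x))
    (hδ : Function.Surjective δ) (h1 : Finite δ.ker) (h2 : Finite ψ.ker) :
    ∀ T : G, δ T = 0 → ∃ R, ψ R = T := by
  let M : AddSubgroup G := (ψ.comp δ).ker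
  have hM : ∀ x : G, x ∈ M ↔ ψ (δ x) = 0 := fun x => Iff.rfl
  let f : M →+ ψ.ker := (δ.comp M.subtype).codRestrict ψ.ker (fun x => by
    rw [AddMonoidHom.mem_ker]; exact (hM x.1).1 x.2)
  have hf : ∀ x : M, (f x : G) = δ x := fun x => rfl
  let g : M →+ δ.ker := (ψ.comp M.subtype).codRestrict δ.ker (fun x => by
    rw [AddMonoidHom.mem_ker]
    have := (hM x.1).1 x.2
    rw [hc] at this
    exact this)
  have hg : ∀ x : M, (g x : G) = ψ x := fun x => rfl
  have hfs : Function.Surjective f := by
    rintro ⟨y, hy⟩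
    obtain ⟨x, hx⟩ := hδ y
    refine ⟨⟨x, (hM x).2 (by rw [hx]; exact hy)⟩, Subtype.ext ?_⟩
    rw [hf]; exact hx
  have ef : Nat.card f.ker = Nat.card δ.ker := by
    refine Nat.card_congr ⟨fun x => ⟨x.1.1, by
      have := x.2
      rw [AddMonoidHom.mem_ker] at this
      rw [AddMonoidHom.mem_ker, ← hf, this]; rfl⟩, fun x => ⟨⟨x.1, (hM _).2 (by
        have := x.2
        rw [AddMonoidHom.mem_ker] at this
        rw [this, map_zero])⟩, by
        rw [AddMonoidHom.mem_ker]
        apply Subtype.ext
        rw [hf]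
        exact x.2⟩, fun x => rfl, fun x => rfl⟩
  have eg : Nat.card g.ker = Nat.card ψ.ker := by
    refine Nat.card_congr ⟨fun x => ⟨x.1.1, by
      have := x.2
      rw [AddMonoidHom.mem_ker] at this
      rw [AddMonoidHom.mem_ker, ← hg, this]; rfl⟩, fun x => ⟨⟨x.1, (hM _).2 (by
        have := x.2
        rw [AddMonoidHom.mem_ker] at this
        rw [hc, this, map_zero])⟩, by
        rw [AddMonoidHom.mem_ker]
        apply Subtype.ext
        rw [hg]
        exact x.2⟩, fun x => rfl, fun x => rfl⟩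
  have cf : Nat.card f.ker * Nat.card f.range = Nat.card M := by
    rw [← AddSubgroup.index_ker]; exact AddSubgroup.card_mul_index _
  have cg : Nat.card g.ker * Nat.card g.range = Nat.card M := by
    rw [← AddSubgroup.index_ker]; exact AddSubgroup.card_mul_index _
  have rf : Nat.card f.range = Nat.card ψ.ker := by
    rw [AddMonoidHom.range_eq_top.2 hfs, AddSubgroup.card_top]
  have hpos : 0 < Nat.card ψ.ker := Nat.card_pos
  have hcard : Nat.card g.range = Nat.card δ.ker := by
    rw [ef, rf] at cf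
    rw [eg, ← cf, mul_comm (Nat.card δ.ker)] at cg
    exact Nat.eq_of_mul_eq_mul_left hpos cg
  have htop : g.range = ⊤ := AddSubgroup.eq_top_of_card_eq _ hcard
  intro T hT
  have : (⟨T, hT⟩ : δ.ker) ∈ g.range := by rw [htop]; trivial
  obtain ⟨x, hx⟩ := this
  refine ⟨x, ?_⟩
  rw [← hg, hx]

section fin

variable {k Ω : Type} [Field k] [Fintype k] [Field Ω] [Algebra k Ω]

/-- Elements fixed by Frobenius. -/
theorem fixed_mem (x : Ω) (hx : x ^ Fintype.card k = x) : ∃ a : k, algebraMap k Ω a = x := by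
  have h1 : (X ^ Fintype.card k - X : k[X]) = (Finset.univ.val.map fun a : k => X - C a).prod := by
    have h2 := FiniteField.roots_X_pow_card_sub_X k
    have h3 : (X ^ Fintype.card k - X : k[X]).natDegree = Fintype.card k :=
      FiniteField.X_pow_card_sub_X_natDegree_eq k Fintype.one_lt_card
    have h4 : (X ^ Fintype.card k - X : k[X]).Monic := by
      have h5 : (X ^ Fintype.card k - X : k[X]).leadingCoeff = 1 := by
        rw [leadingCoeff_sub_of_degree_lt]
        · exact (monic_X_pow _)
        · rw [degree_X_pow, degree_X]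
          exact_mod_cast Fintype.one_lt_card
      exact h5
    have h6 := prod_multiset_X_sub_C_of_monic_of_roots_card_eq h4 (by
      rw [h2, h3]; rfl)
    rw [h2] at h6
    exact h6.symm
  have h7 := congrArg (aeval x) h1
  simp only [map_sub, map_pow, aeval_X] at h7
  rw [hx, sub_self, map_multiset_prod, Multiset.map_map] at h7
  have h8 : (0 : Ω) ∈ Multiset.map (⇑(aeval x) ∘ fun a : k => X - C a) Finset.univ.val :=
    Multiset.prod_eq_zero_iff.1 h7.symm
  obtain ⟨a, -, ha⟩ := Multiset.mem_map.1 h8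
  refine ⟨a, ?_⟩
  simp only [Function.comp_apply, map_sub, aeval_X, aeval_C] at ha
  exact (sub_eq_zero.1 ha).symm

/-- Interpolation. -/
theorem descend (s : Finset Ω) (γ : Ω → Ω) (hs : ∀ t ∈ s, t ^ Fintype.card k ∈ s)
    (hγ : ∀ t ∈ s, γ t ^ Fintype.card k = γ (t ^ Fintype.card k)) :
    ∃ g : k[X], ∀ t ∈ s, aeval t g = γ t := by
  let φ : Ω →ₐ[k] Ω := FiniteField.frobeniusAlgHom k Ω
  have hφ : ∀ x, φ x = x ^ Fintype.card k := fun x => rfl
  let P : Polynomial Ω := Lagrange.interpolate s id γ
  have hinj : Set.InjOn (id : Ω → Ω) s := Function.injective_id.injOn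
  have hP : ∀ t ∈ s, P.eval t = γ t := fun t ht =>
    Lagrange.eval_interpolate_at_node γ hinj ht
  have hdeg : P.degree < s.card := Lagrange.degree_interpolate_lt γ hinj
  have himg : s.image φ = s := by
    apply Finset.eq_of_subset_of_card_le
    · intro y hy
      obtain ⟨t, ht, rfl⟩ := Finset.mem_image.1 hy
      exact hs t ht
    · exact (Finset.card_image_of_injective s (RingHom.injective (φ : Ω →+* Ω))).ge
  have hP' : ∀ t ∈ s, (P.map (φ : Ω →+* Ω)).eval t = P.eval t := by
    intro t ht
    rw [← himg] at ht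
    obtain ⟨u, hu, rfl⟩ := Finset.mem_image.1 ht
    have e1 : (P.map (φ : Ω →+* Ω)).eval (φ u) = φ (P.eval u) := by
      have := Polynomial.eval_map_apply (p := P) (f := (φ : Ω →+* Ω)) u
      exact this
    rw [e1, hP u hu, hφ, hγ u hu, ← hφ, hP (φ u) (hs u hu)]
  have heq : P.map (φ : Ω →+* Ω) = P := by
    refine Polynomial.eq_of_degree_sub_lt_of_eval_finset_eq s ?_ hP'
    refine (degree_sub_le _ _).trans_lt (max_lt ?_ hdeg)
    exact (degree_map_le).trans_lt hdeg
  have hco : ∀ n, ∃ a : k, algebraMap k Ω a = P.coeff n := by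
    intro n
    refine fixed_mem (P.coeff n) ?_
    have := congrArg (fun Q : Polynomial Ω => Q.coeff n) heq
    simp only [coeff_map] at this
    exact this
  have hl : P ∈ lifts (algebraMap k Ω) := by
    rw [lifts_iff_coeff_lifts]
    exact fun n => hco n
  obtain ⟨g, hg⟩ := (mem_lifts _).1 hl
  refine ⟨g, fun t ht => ?_⟩
  rw [aeval_def, ← eval_map, hg, hP t ht]

end fin

end Pool.Agent.H70.GM
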