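import Mathlib

/-!
# Project PR (helper62), part GM (helper70): the norm form of `R[X] / (X ^ 3 + A X + B)`
-/

set_option autoImplicit false

open Polynomial

namespace Pool.Agent.H70.GM

section ring

variable {R : Type} [CommRing R]

/-- `X ^ 3 + A X + B` -/
noncomputable def Fc (A B : R) : R[X] := X ^ 3 + C A * X + C B

/-- The companion matrix. -/
def Tc (A B : R) : Matrix (Fin 3) (Fin 3) R := !![0, 0, -B; 1, 0, -A; 0, 1, 0]

/-- The norm of the class of `u`. -/
noncomputable def Nf (A B : R) (u : R[X]) : R := (aeval (Tc A B) u).det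

variable (A B : R)

theorem Tc_sq : Tc A B ^ 2 = !![0, -B, 0; 0, -A, -B; 1, 0, -A] := by
  rw [pow_two, Tc]
  ext i j
  fin_cases i <;> fin_cases j <;> simp [Matrix.mul_apply, Fin.sum_univ_three]

theorem Tc_root : aeval (Tc A B) (Fc A B) = 0 := by
  have e : aeval (Tc A B) (Fc A B) = Tc A B ^ 2 * Tc A B + A • Tc A B + B • 1 := by
    simp only [Fc, map_add, map_mul, map_pow, aeval_X, aeval_C, Algebra.algebraMap_eq_smul_one]
    rw [smul_mul_assoc, one_mul, ← pow_succ]
  rw [e, Tc_sq, Tc]
  ext i j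
  fin_cases i <;> fin_cases j <;> simp [Matrix.mul_apply, Fin.sum_univ_three] <;> ring

theorem Nf_mul (u v : R[X]) : Nf A B (u * v) = Nf A B u * Nf A B v := by
  rw [Nf, map_mul, Matrix.det_mul]; rfl

theorem Nf_one : Nf A B 1 = 1 := by
  rw [Nf, map_one, Matrix.det_one]

theorem Nf_congr {u v : R[X]} (h : Fc A B ∣ u - v) : Nf A B u = Nf A B v := by
  obtain ⟨q, hq⟩ := h
  have : u = v + Fc A B * q := by rw [← hq]; ring
  rw [Nf, Nf, this, map_add, map_mul, Tc_root, zero_mul, add_zero]

theorem Nf_three (r s w : R) : Nf A B (C r + C s * X + C w * X ^ 2) =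
    (!![r, -(w * B), -(s * B); s, r - w * A, -(s * A) - w * B; w, s, r - w * A] :
      Matrix (Fin 3) (Fin 3) R).det := by
  have e : aeval (Tc A B) (C r + C s * X + C w * X ^ 2) = r • (1 : Matrix (Fin 3) (Fin 3) R) +
      s • Tc A B + w • Tc A B ^ 2 := by
    simp only [map_add, map_mul, map_pow, aeval_X, aeval_C, Algebra.algebraMap_eq_smul_one,
      smul_mul_assoc, one_mul]
  rw [Nf, e, Tc_sq, Tc]
  congr 1
  ext i j
  fin_cases i <;> fin_cases j <;> simp [Matrix.one_apply] <;> ring

theorem Nf_lin (x : R) : Nf A B (C x - X) = x ^ 3 + A * x + B := by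
  have e : (C x - X : R[X]) = C x + C (-1) * X + C 0 * X ^ 2 := by
    simp only [C_neg, C_1, C_0]; ring
  rw [e, Nf_three, Matrix.det_fin_three]
  simp
  ring

/-- Reduction to degree at most two. -/
theorem exists_three (hR : Nontrivial R) (u : R[X]) :
    ∃ (r s w : R) (q : R[X]), u = C r + C s * X + C w * X ^ 2 + Fc A B * q := by
  have hm : (Fc A B).Monic := by
    rw [Fc, add_assoc]
    refine monic_X_pow_add ?_
    refine (degree_add_le _ _).trans_lt (max_lt ?_ ?_)
    · exact (degree_C_mul_X_le _).trans_lt (by norm_num)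
    · exact degree_C_le.trans_lt (by norm_num)
  have hd : (Fc A B).natDegree = 3 := by
    rw [Fc, add_assoc]
    refine natDegree_add_eq_left_of_degree_lt ?_ |>.trans (natDegree_X_pow 3)
    rw [degree_X_pow]
    refine (degree_add_le _ _).trans_lt (max_lt ?_ ?_)
    · exact (degree_C_mul_X_le _).trans_lt (by norm_num)
    · exact degree_C_le.trans_lt (by norm_num)
  have h1 := modByMonic_add_div u (Fc A B)
  have h2 : (u %ₘ Fc A B).natDegree < 3 := by
    rw [← hd]
    exact natDegree_modByMonic_lt u hm (fun h => by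
      rw [h, natDegree_one] at hd
      omega)
  have h3 := (u %ₘ Fc A B).as_sum_range' 3 h2
  rw [Finset.sum_range_succ, Finset.sum_range_succ, Finset.sum_range_succ,
    Finset.sum_range_zero] at h3
  refine ⟨(u %ₘ Fc A B).coeff 0, (u %ₘ Fc A B).coeff 1, (u %ₘ Fc A B).coeff 2, u /ₘ Fc A B, ?_⟩
  conv_lhs => rw [← h1, h3]
  simp only [← C_mul_X_pow_eq_monomial, pow_zero, pow_one, mul_one, zero_add]

end ring

theorem Fc_map {R S : Type} [CommRing R] [CommRing S] (φ : R →+* S) (A B : R) :
    (Fc A B).map φ = Fc (φ A) (φ B) := by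
  simp [Fc]

theorem Nf_map {R S : Type} [CommRing R] [CommRing S] (φ : R →+* S) (A B : R) (u : R[X]) :
    Nf (φ A) (φ B) (u.map φ) = φ (Nf A B u) := by
  rw [Nf, Nf, RingHom.map_det]
  congr 1
  have h1 : Tc (φ A) (φ B) = φ.mapMatrix (Tc A B) := by
    ext i j
    fin_cases i <;> fin_cases j <;> simp [Tc]
  rw [aeval_def, eval₂_map, h1, aeval_def, hom_eval₂]
  congr 1
  ext r i j
  simp only [RingHom.comp_apply, RingHom.mapMatrix_apply, Matrix.map_apply,
    Matrix.algebraMap_matrix_apply, Algebra.algebraMap_self_apply]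
  split_ifs <;> simp

section field

variable {K : Type} [Field K] {A B : K}

theorem Nf_roots {t1 t2 t3 : K} (h0 : t1 + t2 + t3 = 0) (hA : A = t1 * t2 + t1 * t3 + t2 * t3)
    (hB : B = -(t1 * t2 * t3)) (u : K[X]) :
    Nf A B u = u.eval t1 * u.eval t2 * u.eval t3 := by
  have h3 : t3 = -t1 - t2 := by linear_combination h0
  obtain ⟨r, s, w, q, hq⟩ := exists_three A B inferInstance u
  have e1 : (Fc A B).eval t1 = 0 := by
    simp only [Fc, eval_add, eval_mul, eval_pow, eval_X, eval_C]; rw [hA, hB, h3]; ring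
  have e2 : (Fc A B).eval t2 = 0 := by
    simp only [Fc, eval_add, eval_mul, eval_pow, eval_X, eval_C]; rw [hA, hB, h3]; ring
  have e3 : (Fc A B).eval t3 = 0 := by
    simp only [Fc, eval_add, eval_mul, eval_pow, eval_X, eval_C]; rw [hA, hB, h3]; ring
  have h4 : Nf A B u = Nf A B (C r + C s * X + C w * X ^ 2) := by
    refine Nf_congr _ _ ⟨q, ?_⟩
    rw [hq]; ring
  rw [h4, Nf_three, hq]
  simp only [eval_add, eval_mul, eval_pow, eval_X, eval_C, e1, e2, e3, zero_mul, add_zero]
  rw [Matrix.det_fin_three]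
  simp
  rw [hA, hB, h3]
  ring

/-- The norm of an element of a cubic extension. -/
theorem Nf_norm {L : Type} [Field L] [Algebra K L] (t : L)
    (ht : t ^ 3 + algebraMap K L A * t + algebraMap K L B = 0) (b : Module.Basis (Fin 3) K L)
    (hb : ∀ i, b i = t ^ (i : ℕ)) (h : K[X]) : Algebra.norm K (aeval t h) = Nf A B h := by
  rw [Algebra.norm_eq_matrix_det b, Nf]
  congr 1
  have e : Algebra.leftMulMatrix b (aeval t h) = aeval (Algebra.leftMulMatrix b t) h := by
    rw [aeval_algHom_apply]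
  rw [e]
  congr 2
  have h0 : ∀ j, t * b j = ∑ i, Tc A B i j • b i := by
    intro j
    rw [Fin.sum_univ_three]
    fin_cases j
    · simp [hb, Tc]
    · simp [hb, Tc]; ring
    · simp [hb, Tc, Algebra.smul_def]
      linear_combination ht
  ext i j
  rw [Algebra.leftMulMatrix_eq_repr_mul, h0]
  rw [b.repr_sum_self]

end field

end Pool.Agent.H70.GM
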