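import Pool.Agent.H70.GM.FinA
import Pool.Agent.H70.GM.Nrm
import Pool.Graph.R_pool_sql_team_seeded_63374d34.N630.PP.GP
import Pool.Graph.R_pool_sql_team_seeded_63374d34.N721.PP.GF

/-!
# Project PR (helper62), part GM (helper70): 2-descent over a finite field
-/

set_option autoImplicit false
set_option linter.all false

open Polynomial WeierstrassCurve WeierstrassCurve.Affine
open Pool.Agent.TH115.GD Pool.Agent.N874.PP
open scoped Classical

namespace Pool.Agent.H70.GM

section fin

variable {k Ω : Type} [Field k] [Fintype k] [Field Ω] [Algebra k Ω] {A B : k}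

/-- Finitely many points are fixed by Frobenius. -/
theorem fin_fixed : Finite
    ((act (sW A B) (FiniteField.frobeniusAlgHom k Ω) - AddMonoidHom.id (Pt (sW A B) Ω) :
      Pt (sW A B) Ω →+ Pt (sW A B) Ω)).ker := by
  let f : ((act (sW A B) (FiniteField.frobeniusAlgHom k Ω) - AddMonoidHom.id (Pt (sW A B) Ω) :
      Pt (sW A B) Ω →+ Pt (sW A B) Ω)).ker → Option (Ω × Ω) := fun P =>
    match P.1 with
    | .zero => none
    | .some x y _ => some (x, y)
  have hf : Function.Injective f := by
    rintro ⟨P, hP⟩ ⟨Q, hQ⟩ h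
    apply Subtype.ext
    show P = Q
    rcases P with _ | ⟨x, y, hxy⟩ <;> rcases Q with _ | ⟨x', y', hxy'⟩
    · rfl
    · simp [f] at h
    · simp [f] at h
    · simp only [f, Option.some.injEq, Prod.mk.injEq] at h
      obtain ⟨h1, h2⟩ := h
      subst h1; subst h2; rfl
  let r : k → Ω := algebraMap k Ω
  have hr : Set.range f ⊆ insert none (some '' (Set.range r ×ˢ Set.range r)) := by
    rintro _ ⟨⟨P, hP⟩, rfl⟩
    rcases P with _ | ⟨x, y, hxy⟩
    · exact Set.mem_insert _ _
    · refine Set.mem_insert_of_mem _ ⟨(x, y), ?_, rfl⟩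
      rw [AddMonoidHom.mem_ker] at hP
      have h1 : act (sW A B) (FiniteField.frobeniusAlgHom k Ω) (Point.some x y hxy) =
          Point.some x y hxy := sub_eq_zero.1 hP
      injection h1 with h2 h3
      exact ⟨fixed_mem x h2, fixed_mem y h3⟩
  have hfin : (Set.range f).Finite :=
    ((((Set.finite_range r).prod (Set.finite_range r)).image _).insert _).subset hr
  haveI := hfin.to_subtype
  exact Finite.of_injective_finite_range hf

theorem fin_two (h6 : (6 : k) ≠ 0) (hd : 4 * A ^ 3 + 27 * B ^ 2 ≠ 0) : Finite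
    (nsmulAddMonoidHom 2 : Pt (sW A B) Ω →+ Pt (sW A B) Ω).ker := by
  let f : (nsmulAddMonoidHom 2 : Pt (sW A B) Ω →+ Pt (sW A B) Ω).ker → Option Ω := fun P =>
    match P.1 with
    | .zero => none
    | .some x y _ => some x
  have hker : ∀ P : (nsmulAddMonoidHom 2 : Pt (sW A B) Ω →+ Pt (sW A B) Ω).ker,
      P.1 = 0 ∨ ∃ (e : Ω) (h : _), P.1 = Point.some e 0 h ∧ Rt A B e := fun P =>
    Pool.Agent.N630.PP.tor_cases h6 hd P.1 P.2
  have hf : Function.Injective f := by
    rintro ⟨P, hP⟩ ⟨Q, hQ⟩ h
    apply Subtype.ext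
    show P = Q
    rcases hker ⟨P, hP⟩ with h1 | ⟨e, he, h1, -⟩ <;> rcases hker ⟨Q, hQ⟩ with h2 | ⟨e', he', h2, -⟩
    · exact h1.trans h2.symm
    · simp only at h1 h2
      subst h1; subst h2
      simp only [f] at h
      exact absurd h (by simp [Point.zero_def])
    · simp only at h1 h2
      subst h1; subst h2
      simp only [f] at h
      exact absurd h (by simp [Point.zero_def])
    · simp only at h1 h2
      subst h1; subst h2
      simp only [f, Option.some.injEq] at h
      subst h
      rfl
  have hr : Set.range f ⊆ insert none (some '' {e : Ω | Rt A B e}) := by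
    rintro _ ⟨P, rfl⟩
    rcases hker P with h1 | ⟨e, he, h1, h2⟩
    · obtain ⟨P, hP⟩ := P
      simp only at h1
      subst h1
      exact Set.mem_insert _ _
    · obtain ⟨P, hP⟩ := P
      simp only at h1
      subst h1
      exact Set.mem_insert_of_mem _ ⟨e, h2, rfl⟩
  have hroots : {e : Ω | Rt A B e}.Finite := by
    have h0 : (X ^ 3 + C (algebraMap k Ω A) * X + C (algebraMap k Ω B) : Polynomial Ω) ≠ 0 := by
      intro h
      have := congrArg (fun q : Polynomial Ω => q.coeff 3) h
      simp [coeff_X, coeff_C] at this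
    refine (Polynomial.finite_setOf_isRoot h0).subset fun e he => ?_
    show eval e _ = 0
    simp only [eval_add, eval_mul, eval_pow, eval_X, eval_C]
    exact he
  have hfin : (Set.range f).Finite := ((hroots.image _).insert _).subset hr
  haveI := hfin.to_subtype
  exact Finite.of_injective_finite_range hf

/-- Lang's theorem for points of order two. -/
theorem lang [IsSepClosed Ω] (h6 : (6 : k) ≠ 0) (hd : 4 * A ^ 3 + 27 * B ^ 2 ≠ 0)
    (T : Pt (sW A B) Ω) (hT : (2 : ℕ) • T = 0) :
    ∃ R : Pt (sW A B) Ω, act (sW A B) (FiniteField.frobeniusAlgHom k Ω) R = R + T := by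
  obtain ⟨R, hR⟩ := surj_ker
    (act (sW A B) (FiniteField.frobeniusAlgHom k Ω) - AddMonoidHom.id (Pt (sW A B) Ω))
    (nsmulAddMonoidHom 2) (fun x => by
      simp only [AddMonoidHom.sub_apply, AddMonoidHom.id_apply, nsmulAddMonoidHom_apply, map_nsmul,
        smul_sub]) (fun Q => by
      have h2 : (2 : Ω) ≠ 0 := by
        intro h
        apply h6
        have : algebraMap k Ω 2 = 0 := by rw [map_ofNat]; exact h
        rw [map_eq_zero] at this
        rw [show (6 : k) = 2 * 3 by norm_num, this, zero_mul]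
      have hd' := (map_ne_zero (algebraMap k Ω)).2 hd
      rw [map_add, map_mul, map_mul, map_pow, map_pow, map_ofNat, map_ofNat] at hd'
      obtain ⟨P, hP⟩ := Pool.Agent.N721.PP.halve_sep (Pool.Agent.N721.PP.isS A B Ω) h2 hd' Q
      exact ⟨P, by rw [nsmulAddMonoidHom_apply, two_nsmul, hP]⟩)
    (fin_two h6 hd) fin_fixed T hT
  refine ⟨R, ?_⟩
  rw [AddMonoidHom.sub_apply, AddMonoidHom.id_apply] at hR
  rw [← hR]; abel

end fin

end Pool.Agent.H70.GM
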