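import Pool.Agent.H70.GM.FinB

/-!
# Project PR (helper62), part GM (helper70): 2-descent over a finite field, separable case
-/

set_option autoImplicit false
set_option linter.all false

open Polynomial WeierstrassCurve WeierstrassCurve.Affine
open Pool.Agent.TH115.GD Pool.Agent.N874.PP
open scoped Classical

namespace Pool.Agent.H70.GM

section dvd

variable {k Ω : Type} [Field k] [Field Ω] [Algebra k Ω] {A B : k}

/-- A polynomial which vanishes at three different roots. -/
theorem dvd_of_roots {t1 t2 t3 : Ω} (h12 : t1 ≠ t2) (h13 : t1 ≠ t3) (h23 : t2 ≠ t3)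
    (h0 : t1 + t2 + t3 = 0) (hA : algebraMap k Ω A = t1 * t2 + t1 * t3 + t2 * t3)
    (hB : algebraMap k Ω B = -(t1 * t2 * t3)) (P : k[X]) (h1 : aeval t1 P = 0)
    (h2 : aeval t2 P = 0) (h3 : aeval t3 P = 0) : Fc A B ∣ P := by
  rw [← Polynomial.map_dvd_map' (algebraMap k Ω)]
  have e : (Fc A B).map (algebraMap k Ω) = (X - C t1) * (X - C t2) * (X - C t3) := by
    rw [Fc_map, Fc, hA, hB]
    have h3' : t3 = -t1 - t2 := by linear_combination h0
    rw [h3']
    simp only [C_add, C_mul, C_neg, C_sub]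
    ring
  rw [e]
  have d : ∀ t : Ω, aeval t P = 0 → (X - C t) ∣ P.map (algebraMap k Ω) := by
    intro t ht
    rw [dvd_iff_isRoot, IsRoot, eval_map, ← aeval_def, ht]
  have cp : ∀ a b : Ω, a ≠ b → IsCoprime (X - C a : Polynomial Ω) (X - C b) := fun a b hab =>
    isCoprime_X_sub_C_of_isUnit_sub (sub_ne_zero.2 hab).isUnit
  refine IsCoprime.mul_dvd ?_ (IsCoprime.mul_dvd (cp _ _ h12) (d _ h1) (d _ h2)) (d _ h3)
  exact IsCoprime.mul_left (cp _ _ h13) (cp _ _ h23)

end dvd

section fin

variable {k : Type} [Field k] [Fintype k] {A B : k}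

/-- 2-descent over a finite field, separable case. -/
theorem sep_case (h6 : (6 : k) ≠ 0) (hd : 4 * A ^ 3 + 27 * B ^ 2 ≠ 0) (c : k[X])
    (hc : IsCoprime c (Fc A B)) (n : k) (hn : Nf A B c = n ^ 2) :
    (∃ g, Fc A B ∣ c - g ^ 2) ∨
    (∃ (x : k) (g : k[X]), x ^ 3 + A * x + B ≠ 0 ∧ Fc A B ∣ (C x - X) * c - g ^ 2) ∨
    (∃ (e : k) (g : k[X]), e ^ 3 + A * e + B = 0 ∧
      Fc A B ∣ ((C e - X) + (X ^ 2 + C e * X + C (e ^ 2 + A))) * c - g ^ 2) := by
  let Ω := AlgebraicClosure k
  let φ : Ω →ₐ[k] Ω := FiniteField.frobeniusAlgHom k Ω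
  have hφ : ∀ x, φ x = x ^ Fintype.card k := fun x => rfl
  have hφi : Function.Injective φ := RingHom.injective (φ : Ω →+* Ω)
  have h2 : (2 : k) ≠ 0 := by
    intro h
    apply h6
    rw [show (6 : k) = 2 * 3 by norm_num, h, zero_mul]
  have h2' : (2 : Ω) ≠ 0 := by
    have := (map_ne_zero (algebraMap k Ω)).2 h2
    rwa [map_ofNat] at this
  have hne1 : (1 : Ω) ≠ -1 := by
    intro h
    apply h2'
    linear_combination h
  have hd' := (map_ne_zero (algebraMap k Ω)).2 hd
  rw [map_add, map_mul, map_mul, map_pow, map_pow, map_ofNat, map_ofNat] at hd'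
  obtain ⟨t1, t2, t3, h12, h13, h23, hs0, hA, hB⟩ := Pool.Agent.N721.PP.roots_exist (F := Ω) hd'
  let s : Finset Ω := {t1, t2, t3}
  have hmem : ∀ t, t ∈ s ↔ t = t1 ∨ t = t2 ∨ t = t3 := fun t => by
    simp [s]
  have m1 : t1 ∈ s := (hmem _).2 (Or.inl rfl)
  have m2 : t2 ∈ s := (hmem _).2 (Or.inr (Or.inl rfl))
  have m3 : t3 ∈ s := (hmem _).2 (Or.inr (Or.inr rfl))
  have hroot : ∀ t : Ω, Rt A B t ↔ t ∈ s := by
    intro t
    rw [hmem]
    have e : t ^ 3 + algebraMap k Ω A * t + algebraMap k Ω B = (t - t1) * ((t - t2) * (t - t3)) := by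
      rw [hA, hB]
      linear_combination (t ^ 2) * hs0
    constructor
    · intro h
      have h' : t ^ 3 + algebraMap k Ω A * t + algebraMap k Ω B = 0 := h
      rw [e] at h'
      rcases mul_eq_zero.1 h' with h1 | h1
      · exact Or.inl (sub_eq_zero.1 h1)
      rcases mul_eq_zero.1 h1 with h1 | h1
      · exact Or.inr (Or.inl (sub_eq_zero.1 h1))
      · exact Or.inr (Or.inr (sub_eq_zero.1 h1))
    · intro h
      show t ^ 3 + algebraMap k Ω A * t + algebraMap k Ω B = 0
      rw [e]
      rcases h with rfl | rfl | rfl <;> ring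
  have hprod3 : ∀ f : Ω → Ω, ∏ t ∈ s, f t = f t1 * f t2 * f t3 := by
    intro f
    simp only [s]
    rw [Finset.prod_insert (by simp [h12, h13]), Finset.prod_insert (by simp [h23]),
      Finset.prod_singleton]
    ring
  have hφs : ∀ t ∈ s, φ t ∈ s := by
    intro t ht
    rw [← hroot] at ht ⊢
    have h' : t ^ 3 + algebraMap k Ω A * t + algebraMap k Ω B = 0 := ht
    have := congrArg φ h'
    simp only [map_add, map_mul, map_pow, AlgHom.commutes, map_zero] at this
    exact this
  have himg : ∀ s' : Finset Ω, (∀ t ∈ s', φ t ∈ s') → ∀ f : Ω → Ω,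
      ∏ t ∈ s', f (φ t) = ∏ t ∈ s', f t := by
    intro s' hs' f
    have himg : s'.image φ = s' := by
      apply Finset.eq_of_subset_of_card_le
      · intro y hy
        obtain ⟨t, ht, rfl⟩ := Finset.mem_image.1 hy
        exact hs' t ht
      · exact (Finset.card_image_of_injective s' hφi).ge
    conv_rhs => rw [← himg]
    rw [Finset.prod_image (fun a _ b _ h => hφi h)]
  -- the values of c
  have hc0 : ∀ t ∈ s, aeval t c ≠ 0 := by
    intro t ht h0
    obtain ⟨u, v, huv⟩ := hc
    have := congrArg (aeval t) huv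
    have hF : aeval t (Fc A B) = 0 := by
      have h' : t ^ 3 + algebraMap k Ω A * t + algebraMap k Ω B = 0 := (hroot t).2 ht
      simpa only [Fc, map_add, map_mul, map_pow, aeval_X, aeval_C] using h'
    rw [map_add, map_mul, map_mul, h0, hF, mul_zero, mul_zero, add_zero, map_one] at this
    exact zero_ne_one this
  have hNf : algebraMap k Ω (Nf A B c) = aeval t1 c * aeval t2 c * aeval t3 c := by
    rw [← Nf_map, Nf_roots hs0 hA hB, eval_map, eval_map, eval_map]
    rfl
  have hn0 : algebraMap k Ω n ≠ 0 := by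
    intro h
    rw [hn, map_pow, h] at hNf
    exact mul_ne_zero (mul_ne_zero (hc0 _ m1) (hc0 _ m2)) (hc0 _ m3) (by rw [← hNf]; ring)
  -- the square roots
  obtain ⟨β, hβ, hβp⟩ : ∃ β : Ω → Ω, (∀ t ∈ s, β t ^ 2 = aeval t c) ∧
      β t1 * β t2 * β t3 = algebraMap k Ω n := by
    obtain ⟨b1, hb1⟩ := IsAlgClosed.exists_pow_nat_eq (aeval t1 c) (n := 2) (by norm_num)
    obtain ⟨b2, hb2⟩ := IsAlgClosed.exists_pow_nat_eq (aeval t2 c) (n := 2) (by norm_num)
    obtain ⟨b3, hb3⟩ := IsAlgClosed.exists_pow_nat_eq (aeval t3 c) (n := 2) (by norm_num)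
    have hsq : (b1 * b2 * b3) ^ 2 = (algebraMap k Ω n) ^ 2 := by
      rw [← map_pow, ← hn, hNf, ← hb1, ← hb2, ← hb3]; ring
    obtain ⟨b1', hb1', hp⟩ : ∃ b1' : Ω, b1' ^ 2 = aeval t1 c ∧ b1' * b2 * b3 = algebraMap k Ω n := by
      rcases sq_eq_sq_iff_eq_or_eq_neg.1 hsq with h | h
      · exact ⟨b1, hb1, h⟩
      · exact ⟨-b1, by rw [← hb1]; ring, by linear_combination -h⟩
    refine ⟨fun t => if t = t1 then b1' else if t = t2 then b2 else b3, ?_, ?_⟩
    · intro t ht
      rcases (hmem t).1 ht with rfl | rfl | rfl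
      · simp only [if_true]; exact hb1'
      · simp only [h12.symm, if_false, if_true]; exact hb2
      · simp only [h13.symm, h23.symm, if_false]; exact hb3
    · simp only [if_true, h12.symm, h13.symm, h23.symm, if_false]
      exact hp
  have hβ0 : ∀ t ∈ s, β t ≠ 0 := by
    intro t ht h
    have := hβ t ht
    rw [h] at this
    exact hc0 t ht (by rw [← this]; ring)
  have hφc : ∀ t : Ω, φ (aeval t c) = aeval (φ t) c := fun t => (aeval_algHom_apply φ t c).symm
  have hφn : φ (algebraMap k Ω n) = algebraMap k Ω n := φ.commutes n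
  -- the signs
  let ε : Ω → Ω := fun t => φ (β t) / β (φ t)
  have hε : ∀ t ∈ s, φ (β t) = ε t * β (φ t) := fun t ht =>
    (div_mul_cancel₀ _ (hβ0 _ (hφs t ht))).symm
  have hε1 : ∀ t ∈ s, ε t = 1 ∨ ε t = -1 := by
    intro t ht
    have h1 : (φ (β t)) ^ 2 = (β (φ t)) ^ 2 := by
      rw [← map_pow, hβ t ht, hφc, hβ _ (hφs t ht)]
    have h3 := hβ0 _ (hφs t ht)
    rcases sq_eq_sq_iff_eq_or_eq_neg.1 h1 with h | h
    · left; simp only [ε]; rw [h, div_self h3]
    · right; simp only [ε]; rw [h, neg_div, div_self h3]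
  have hεp : ε t1 * ε t2 * ε t3 = 1 := by
    have h1 : φ (β t1) * φ (β t2) * φ (β t3) = algebraMap k Ω n := by
      rw [← map_mul, ← map_mul, hβp, hφn]
    have h3 : β (φ t1) * β (φ t2) * β (φ t3) = algebraMap k Ω n := by
      have := himg s hφs β
      rw [hprod3, hprod3] at this
      rw [this, hβp]
    rw [hε _ m1, hε _ m2, hε _ m3] at h1
    have h4 : (ε t1 * ε t2 * ε t3) * algebraMap k Ω n = 1 * algebraMap k Ω n := by
      rw [← h3, one_mul]
      rw [← h3] at h1
      linear_combination h1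
    exact mul_right_cancel₀ hn0 h4
  have hu12 : φ t1 ≠ φ t2 := fun h => h12 (hφi h)
  have hu13 : φ t1 ≠ φ t3 := fun h => h13 (hφi h)
  have hu23 : φ t2 ≠ φ t3 := fun h => h23 (hφi h)
  obtain ⟨-, -, -, hT4⟩ := Pool.Agent.N630.PP.gp3 k Ω A B h6 hd (φ t1) (φ t2) (φ t3)
    ((hroot _).2 (hφs _ m1)) ((hroot _).2 (hφs _ m2)) ((hroot _).2 (hφs _ m3)) hu12 hu13 hu23
  obtain ⟨T, hT, hT1, hT2, hT3⟩ := hT4 (ε t1) (ε t2) (ε t3) (hε1 _ m1) (hε1 _ m2) (hε1 _ m3) hεp
  have hTε : ∀ t ∈ s, sg T (φ t) = ε t := by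
    intro t ht
    rcases (hmem t).1 ht with rfl | rfl | rfl
    · exact hT1
    · exact hT2
    · exact hT3
  obtain ⟨hTp, hTadd, -, -⟩ := Pool.Agent.N630.PP.gp3 k Ω A B h6 hd t1 t2 t3
    ((hroot _).2 m1) ((hroot _).2 m2) ((hroot _).2 m3) h12 h13 h23
  have hTprod := hTp T hT
  have hsgsq : ∀ t ∈ s, ε t * ε t = 1 := by
    intro t ht
    rcases hε1 t ht with h | h <;> rw [h] <;> ring
  have hsgpm : ∀ (S : Pt (sW A B) Ω) (t : Ω), sg S t = 1 ∨ sg S t = -1 := by
    intro S t
    unfold sg
    split_ifs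
    · exact Or.inl rfl
    · exact Or.inr rfl
  have hdvd := fun P : k[X] => dvd_of_roots (Ω := Ω) h12 h13 h23 hs0 hA hB P
  obtain ⟨R, hR⟩ := lang (Ω := Ω) h6 hd T hT
  by_cases hR2 : (2 : ℕ) • R = 0
  · -- R is of order two
    left
    let γ : Ω → Ω := fun t => β t * sg R t
    have hγ : ∀ t ∈ s, γ t ^ Fintype.card k = γ (t ^ Fintype.card k) := by
      intro t ht
      rw [← hφ, ← hφ]
      have h1 : sg (act (sW A B) φ R) (φ t) = φ (sg R t) :=
        (Pool.Agent.N630.PP.gp4 k Ω Ω A B φ R t).1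
      have h3 : φ (sg R t) = sg R t := by
        rcases hsgpm R t with h | h <;> rw [h] <;> simp
      have h4 : act (sW A B) φ R = R + T := hR
      rw [h4, hTadd R T (φ t) hR2 hT ((hroot _).2 (hφs t ht)), hTε t ht, h3] at h1
      show φ (β t * sg R t) = β (φ t) * sg R (φ t)
      rw [map_mul, h3, hε t ht, ← h1]
      linear_combination (β (φ t) * sg R (φ t)) * hsgsq t ht
    obtain ⟨g, hg⟩ := descend s γ (fun t ht => hφs t ht) hγ
    refine ⟨g, hdvd _ ?_ ?_ ?_⟩
    all_goals
      rw [map_sub, map_pow, hg _ (by assumption)]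
      show _ - (β _ * sg R _) ^ 2 = 0
      rw [mul_pow, hβ _ (by assumption)]
    · rcases hsgpm R t1 with h | h <;> rw [h] <;> ring
    · rcases hsgpm R t2 with h | h <;> rw [h] <;> ring
    · rcases hsgpm R t3 with h | h <;> rw [h] <;> ring
  · obtain ⟨x, y, hxy, h2R, hrr⟩ := Pool.Agent.N630.PP.gp1 k Ω A B h6 hd R hR2
    have hfix : act (sW A B) φ ((2 : ℕ) • R) = (2 : ℕ) • R := by
      have h4 : act (sW A B) φ R = R + T := hR
      rw [map_nsmul, h4, smul_add, hT, add_zero]
    rw [h2R] at hfix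
    have hxy' : φ x = x ∧ φ y = y := by
      injection hfix with h3 h4
      exact ⟨h3, h4⟩
    obtain ⟨x0, hx0⟩ := fixed_mem x hxy'.1
    obtain ⟨y0, hy0⟩ := fixed_mem y hxy'.2
    have heq : y0 ^ 2 = x0 ^ 3 + A * x0 + B := by
      have h3 := (Pool.Agent.N630.PP.isS (Ω := Ω) h6 hd).nonsingular.1 hxy
      apply (algebraMap k Ω).injective
      simp only [map_add, map_mul, map_pow, hx0, hy0]
      exact h3
    have hφr : ∀ t ∈ s, φ (rr t R) = ε t * rr (φ t) R := by
      intro t ht
      have h1 : rr (φ t) (act (sW A B) φ R) = φ (rr t R) :=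
        (Pool.Agent.N630.PP.gp4 k Ω Ω A B φ R t).2
      have h4 : act (sW A B) φ R = R + T := hR
      rw [h4, Pool.Agent.N630.PP.gp2 k Ω A B h6 hd R T hR2 hT _ ((hroot _).2 (hφs t ht)),
        hTε t ht] at h1
      exact h1.symm
    let γ : Ω → Ω := fun t => β t * rr t R
    have hγ1 : ∀ t ∈ s, φ (γ t) = γ (φ t) := by
      intro t ht
      show φ (β t * rr t R) = β (φ t) * rr (φ t) R
      rw [map_mul, hε t ht, hφr t ht]
      linear_combination (β (φ t) * rr (φ t) R) * hsgsq t ht
    right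
    by_cases hy : y0 = 0
    · right
      have hxroot : x ∈ s := by
        rw [← hroot]
        show x ^ 3 + algebraMap k Ω A * x + algebraMap k Ω B = 0
        rw [← hx0, ← map_pow, ← map_mul, ← map_add, ← map_add, ← heq, hy]
        simp
      let γ' : Ω → Ω := fun t => if t = x then β x * ∏ t' ∈ s.erase x, rr t' R else γ t
      have hers : ∀ t ∈ s.erase x, φ t ∈ s.erase x := by
        intro t ht
        rw [Finset.mem_erase] at ht ⊢
        refine ⟨fun h => ht.1 (hφi (h.trans hxy'.1.symm)), hφs t ht.2⟩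
      have hεx : ε x * ∏ t' ∈ s.erase x, ε t' = 1 := by
        rw [Finset.mul_prod_erase s ε hxroot, hprod3]
        exact hεp
      have hγ' : ∀ t ∈ s, γ' t ^ Fintype.card k = γ' (t ^ Fintype.card k) := by
        intro t ht
        rw [← hφ, ← hφ]
        by_cases htx : t = x
        · subst htx
          simp only [γ', hxy'.1, if_true]
          rw [map_mul, map_prod, hε t ht, hxy'.1]
          have h1 : ∏ t' ∈ s.erase t, φ (rr t' R) =
              (∏ t' ∈ s.erase t, ε t') * ∏ t' ∈ s.erase t, rr t' R := by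
            rw [← himg _ hers (fun t' => rr t' R), ← Finset.prod_mul_distrib]
            exact Finset.prod_congr rfl fun t' ht' => hφr t' (Finset.mem_of_mem_erase ht')
          rw [h1]
          linear_combination (β t * ∏ t' ∈ s.erase t, rr t' R) * hεx
        · have h1 : φ t ≠ x := fun h => htx (hφi (h.trans hxy'.1.symm))
          simp only [γ', htx, h1, if_false]
          exact hγ1 t ht
      obtain ⟨g, hg⟩ := descend s γ' (fun t ht => hφs t ht) hγ'
      have hpr : ∏ t' ∈ s.erase x, (x - t') = 3 * x ^ 2 + algebraMap k Ω A := by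
        rcases (hmem x).1 hxroot with h | h | h
        · have : s.erase x = {t2, t3} := by
            rw [h]; ext z; simp only [s, Finset.mem_erase, Finset.mem_insert, Finset.mem_singleton]
            constructor
            · rintro ⟨h1, h3 | h3 | h3⟩ <;> tauto
            · rintro (h1 | h1) <;> subst h1 <;> tauto
          rw [this, Finset.prod_pair h23, h, hA]
          linear_combination (-2 * t1) * hs0
        · have : s.erase x = {t1, t3} := by
            rw [h]; ext z; simp only [s, Finset.mem_erase, Finset.mem_insert, Finset.mem_singleton]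
            constructor
            · rintro ⟨h1, h3 | h3 | h3⟩ <;> tauto
            · rintro (h1 | h1) <;> subst h1 <;> tauto
          rw [this, Finset.prod_pair h13, h, hA]
          linear_combination (-2 * t2) * hs0
        · have : s.erase x = {t1, t2} := by
            rw [h]; ext z; simp only [s, Finset.mem_erase, Finset.mem_insert, Finset.mem_singleton]
            constructor
            · rintro ⟨h1, h3 | h3 | h3⟩ <;> tauto
            · rintro (h1 | h1) <;> subst h1 <;> tauto
          rw [this, Finset.prod_pair h12, h, hA]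
          linear_combination (-2 * t3) * hs0
      have hval : ∀ t ∈ s, aeval t (((C x0 - X) + (X ^ 2 + C x0 * X + C (x0 ^ 2 + A))) * c -
          g ^ 2) = 0 := by
        intro t ht
        simp only [map_sub, map_add, map_mul, map_pow, aeval_X, aeval_C, hx0, hg t ht]
        by_cases htx : t = x
        · subst htx
          simp only [γ', if_true]
          rw [mul_pow, hβ t ht, ← Finset.prod_pow]
          have : ∏ t' ∈ s.erase t, rr t' R ^ 2 = ∏ t' ∈ s.erase t, (t - t') :=
            Finset.prod_congr rfl fun t' ht' => hrr t' ((hroot _).2 (Finset.mem_of_mem_erase ht'))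
          rw [this, hpr]
          ring
        · simp only [γ', htx, if_false, γ]
          rw [mul_pow, hβ t ht, hrr t ((hroot _).2 ht)]
          have h1 : t ^ 3 + algebraMap k Ω A * t + algebraMap k Ω B = 0 := (hroot _).2 ht
          have h3 : x ^ 3 + algebraMap k Ω A * x + algebraMap k Ω B = 0 := (hroot _).2 hxroot
          have h4 : (t - x) * (t ^ 2 + x * t + (x ^ 2 + algebraMap k Ω A)) = 0 := by
            linear_combination h1 - h3
          have h5 := (mul_eq_zero.1 h4).resolve_left (sub_ne_zero.2 htx)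
          linear_combination (aeval t c) * h5
      refine ⟨x0, g, by rw [← heq, hy]; ring, hdvd _ (hval _ m1) (hval _ m2) (hval _ m3)⟩
    · left
      obtain ⟨g, hg⟩ := descend s γ (fun t ht => hφs t ht) (fun t ht => hγ1 t ht)
      have hval : ∀ t ∈ s, aeval t ((C x0 - X) * c - g ^ 2) = 0 := by
        intro t ht
        simp only [map_sub, map_mul, map_pow, aeval_X, aeval_C, hx0, hg t ht, γ]
        rw [mul_pow, hβ t ht, hrr t ((hroot _).2 ht)]
        ring
      exact ⟨x0, g, by rw [← heq]; exact pow_ne_zero 2 hy,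
        hdvd _ (hval _ m1) (hval _ m2) (hval _ m3)⟩

end fin

end Pool.Agent.H70.GM
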